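import Pool.Agent.X180.OJ.Tow
import Pool.Agent.X180.OD.Base

/-!
Towers whose steps are products of constant orbifolds and arrangements: nonvanishing and
abundance.
-/

set_option autoImplicit false
set_option linter.overlappingInstances false

open FF Pool.Agent.W602.GT Pool.Agent.Y172 Pool.Agent.Y191 Pool.Agent.X180.Orb
open Pool.Agent.X180.OP
open Pool.Agent.X180.TP (dims exists_idx)
open Pool.Agent.X180.Tow (HasForms dn trdeg_dn hor_nonneg hor_le)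
open Pool.Agent.X180.Iso (hor)

namespace Pool.Agent.X180.OJ

variable {K : Type} [Field K] [Algebra ℂ K]

/-- the forms -/
theorem tow_top {N l c : ℕ}
    {E : Fin (l + 1) → IntermediateField ℂ K} {D : Fin (l + 1) → ℕ} {e lam : Fin l → ℕ}
    {r s : Fin c → ℕ} {y : Fin (N + 1) → K} {Δ : Place ℂ K → ℚ} {S : Set (Place ℂ K)}
    (hS : ∀ P ∈ S, IsPrimeDivisor y P) (hy : IsPair y (D (Fin.last l) + ∑ j, r j) Δ)
    (hT : IsTower S (fun P => (Δ P : ℝ)) E D e lam) {w : ∀ j, Fin (s j) → ℚ}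
    (hF : Fibres y (D (Fin.last l) + ∑ j, r j) Δ {P | P ∈ S ∧ Δ P < 1} (E (Fin.last l)) r s w)
    (hws : ∀ j, (r j + 1 : ℚ) ≤ ∑ i, w j i) :
    HasForms (D 0 + (∑ i, e i + ∑ j, r j)) S (hor (E 0) fun P => (Δ P : ℝ)) (E 0)
      (∑ i, e i + ∑ j, r j) (∑ i, lam i + big r s w) := by
  obtain ⟨hw, K', _, _, _, _, _, B, u, hB, hu, hH, hC⟩ := hF
  obtain ⟨κ, hκ, hκs⟩ := exists_idx r s w
  have hset : {P | P ∈ S ∧ Δ P < 1} = {P | P ∈ S ∧ ((Δ P : ℚ) : ℝ) < 1} := by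
    ext P
    change (P ∈ S ∧ Δ P < 1) ↔ (P ∈ S ∧ ((Δ P : ℚ) : ℝ) < 1)
    norm_cast
  rw [hset] at hH
  have hH' := OP.lcHor_full hB (fun j i => ((hw j).2 i).1) hws hH
  have hδ : ∀ P ∈ S, (0 : ℝ) ≤ (Δ P : ℝ) := fun P hP =>
    Rat.cast_nonneg.2 (hy.2.2.1 P (hS P hP))
  have h0 : HasForms (D (Fin.last l) + ∑ j, r j) S
      (hor (E (Fin.last l)) fun P => (Δ P : ℝ)) (E (Fin.last l)) (∑ j, r j)
      (Pool.Agent.X180.TP.big r s w) :=
    lc_low (N := D (Fin.last l) + ∑ j, r j)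
      (Pool.Agent.X180.Iso.trdeg_rel' hy.2.1 (hT.1 _)) hB finSigmaFinEquiv hu
      (fun j i => ((hw j).2 i).1) hws hκ hκs
      (fun P hP => hor_nonneg (hδ P hP)) (Pool.Agent.X180.Iso.lcHor_hor hH')
  have h1 := tower_forms hδ hT hy.2.1 rfl h0
  have hn : D (Fin.last l) + ∑ j, r j = D 0 + (∑ i, e i + ∑ j, r j) := by
    rw [dims fun i => (hT.2 i).2.1, add_assoc]
  rw [hn] at h1
  exact h1

/-- **Nonvanishing for pairs over towers.** -/
theorem tow_non {N l c k : ℕ}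
    {E : Fin (l + 1) → IntermediateField ℂ K} {D : Fin (l + 1) → ℕ} {e lam : Fin l → ℕ}
    {r s : Fin c → ℕ} {y : Fin (N + 1) → K} {Δ : Place ℂ K → ℚ}
    (hy : IsPair y (D (Fin.last l) + ∑ j, r j) Δ)
    (hT : IsTower {P | IsPrimeDivisor y P} (fun P => (Δ P : ℝ)) E D e lam)
    {w : ∀ j, Fin (s j) → ℚ}
    (hF : Fibres y (D (Fin.last l) + ∑ j, r j) Δ {P | IsPrimeDivisor y P ∧ Δ P < 1}
      (E (Fin.last l)) r s w)
    (hbase : ∀ lam' : ℕ, HasForms (D 0 + (∑ i, e i + ∑ j, r j)) {P | IsPrimeDivisor y P}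
      (hor (E 0) fun P => (Δ P : ℝ)) (E 0) (∑ i, e i + ∑ j, r j) lam' →
      KodairaGe (D 0 + (∑ i, e i + ∑ j, r j)) {P | IsPrimeDivisor y P}
        (fun P => (Δ P : ℝ)) (k + lam')) :
    Nonvanishing y (D (Fin.last l) + ∑ j, r j) Δ (k + ∑ i, lam i + big r s w) r s w := by
  have h1 := tow_top (S := {P | IsPrimeDivisor y P}) (fun _ h => h) hy hT hF
  obtain ⟨hw, K', _, _, _, _, _, B, u, hB, hu, hH, hC⟩ := hF
  have hn : D (Fin.last l) + ∑ j, r j = D 0 + (∑ i, e i + ∑ j, r j) := by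
    rw [dims fun i => (hT.2 i).2.1, add_assoc]
  refine ⟨fun hws => ?_, (lc_ab hy.1 hy.2.1 hy.2.2 hB.1 hu (fun j => (hw j).1)
    (fun j i => ((hw j).2 i).1) (fun j i => ((hw j).2 i).2) hC).1⟩
  refine lc_nv hy.1 hy.2.1 hy.2.2 hB.1 hu (fun j => (hw j).1)
    (fun j i => ((hw j).2 i).1) (fun j i => ((hw j).2 i).2) hC hws (by omega) ?_
  have h2 := hbase _ (h1 hws)
  rw [← hn, ← add_assoc k] at h2
  exact h2

/-- **Equality for pairs over towers.** -/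
theorem tow_eq {N l c : ℕ}
    {E : Fin (l + 1) → IntermediateField ℂ K} {D : Fin (l + 1) → ℕ} {e lam : Fin l → ℕ}
    {r s : Fin c → ℕ} {y : Fin (N + 1) → K} {Δ : Place ℂ K → ℚ}
    (hy : IsPair y (D (Fin.last l) + ∑ j, r j) Δ)
    (hT : IsTower {P | IsPrimeDivisor y P} (fun P => (Δ P : ℝ)) E D e lam)
    (hle : ∀ i, lam i = e i) {w : ∀ j, Fin (s j) → ℚ}
    (hF : Fibres y (D (Fin.last l) + ∑ j, r j) Δ {P | IsPrimeDivisor y P ∧ Δ P < 1}
      (E (Fin.last l)) r s w)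
    (hbase : ∀ lam' : ℕ, HasForms (D 0 + (∑ i, e i + ∑ j, r j)) {P | IsPrimeDivisor y P}
      (hor (E 0) fun P => (Δ P : ℝ)) (E 0) (∑ i, e i + ∑ j, r j) lam' →
      KodairaGe (D 0 + (∑ i, e i + ∑ j, r j)) {P | IsPrimeDivisor y P}
        (fun P => (Δ P : ℝ)) (D 0 + lam')) (hws : ∀ j, (r j + 1 : ℚ) ≤ ∑ i, w j i) :
    kodairaDim y (D (Fin.last l) + ∑ j, r j) Δ =
        ((D (Fin.last l) + big r s w : ℕ) : WithBot ℕ) ∧
      ∀ A, Effective y A → Integral y A → numericalDim y (D (Fin.last l) + ∑ j, r j) Δ A =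
        ((D (Fin.last l) + big r s w : ℕ) : EReal) := by
  have h1 := tow_top (S := {P | IsPrimeDivisor y P}) (fun _ h => h) hy hT hF hws
  obtain ⟨hw, K', _, _, _, _, _, B, u, hB, hu, hH, hC⟩ := hF
  have hsum : D (Fin.last l) = D 0 + ∑ i, e i := dims fun i => (hT.2 i).2.1
  have hn : D (Fin.last l) + ∑ j, r j = D 0 + (∑ i, e i + ∑ j, r j) := by
    rw [hsum, add_assoc]
  refine (lc_ab hy.1 hy.2.1 hy.2.2 hB.1 hu (fun j => (hw j).1)
    (fun j i => ((hw j).2 i).1) (fun j i => ((hw j).2 i).2) hC).2 _ hws ?_ ?_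
  · rw [add_assoc]
    congr 1
    unfold big
    rw [← Finset.sum_add_distrib]
    refine Finset.sum_congr rfl fun j _ => ?_
    have h3 := hws j
    by_cases h4 : ∑ i, w j i = r j + 1
    · rw [if_pos h4, if_neg (by rw [h4]; exact lt_irrefl _), zero_add]
    · rw [if_neg h4, if_pos (lt_of_le_of_ne h3 (Ne.symm h4)), add_zero]
  · rw [show ∑ i, lam i = ∑ i, e i from Finset.sum_congr rfl fun i _ => hle i] at h1
    have h3 := hbase _ h1
    rw [← hn, ← add_assoc (D 0), ← hsum] at h3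
    exact h3

/-- **Abundance for pairs over towers.** -/
theorem tow_ab {N l c : ℕ}
    {E : Fin (l + 1) → IntermediateField ℂ K} {D : Fin (l + 1) → ℕ} {e lam : Fin l → ℕ}
    {r s : Fin c → ℕ} {y : Fin (N + 1) → K} {Δ Γ A : Place ℂ K → ℚ}
    (hy : IsPair y (D (Fin.last l) + ∑ j, r j) Δ) (hΓ : Effective y Γ) (hA : Effective y A)
    (hps : PseudoEffective y (D (Fin.last l) + ∑ j, r j) (Δ - Γ) A)
    (hT : IsTower (Relevant y (D (Fin.last l) + ∑ j, r j) Δ Γ A)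
      (fun P => (Δ P : ℝ)) E D e lam) (hle : ∀ i, lam i = e i) {w : ∀ j, Fin (s j) → ℚ}
    (hF : Fibres y (D (Fin.last l) + ∑ j, r j) Δ
      {P | P ∈ Relevant y (D (Fin.last l) + ∑ j, r j) Δ Γ A ∧ Δ P < 1} (E (Fin.last l)) r s w)
    (hbase : ∀ lam' : ℕ, HasForms (D 0 + (∑ i, e i + ∑ j, r j))
      (Relevant y (D (Fin.last l) + ∑ j, r j) Δ Γ A)
      (hor (E 0) fun P => (Δ P : ℝ)) (E 0) (∑ i, e i + ∑ j, r j) lam' →
      KodairaGe (D 0 + (∑ i, e i + ∑ j, r j))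
        (Relevant y (D (Fin.last l) + ∑ j, r j) Δ Γ A)
        (fun P => (Δ P : ℝ)) (D 0 + lam')) :
    Abundance y (D (Fin.last l) + ∑ j, r j) Δ Γ (D (Fin.last l)) r s w := by
  have h1 := tow_top (S := Relevant y (D (Fin.last l) + ∑ j, r j) Δ Γ A)
    (fun _ h => h.1) hy hT hF
  obtain ⟨hw, K', _, _, _, _, _, B, u, hB, hu, hH, hC⟩ := hF
  refine Pool.Agent.X327.MA.abundance_of hy hΓ hA hps hw hB hu hC fun hws => ?_
  have hsum : D (Fin.last l) = D 0 + ∑ i, e i := dims fun i => (hT.2 i).2.1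
  have hn : D (Fin.last l) + ∑ j, r j = D 0 + (∑ i, e i + ∑ j, r j) := by
    rw [hsum, add_assoc]
  have h2 := h1 hws
  rw [show ∑ i, lam i = ∑ i, e i from Finset.sum_congr rfl fun i _ => hle i] at h2
  have h3 := hbase _ h2
  rw [← hn, ← add_assoc (D 0), ← hsum] at h3
  exact h3

/-- the forms, for towers of general orbifolds -/
theorem dcan_top {N l c : ℕ}
    {E : Fin (l + 1) → IntermediateField ℂ K} {D : Fin (l + 1) → ℕ} {e lam : Fin l → ℕ}
    {r s : Fin c → ℕ} {y : Fin (N + 1) → K}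
    (hy : IsCanonicalVariety y (D (Fin.last l) + ∑ j, r j))
    (hT : IsTower {P | IsPrimeDivisor y P} (fun _ => 0) E D e lam) {w : ∀ j, Fin (s j) → ℚ}
    (hF : CanonicalFibres y (E (Fin.last l)) r s w) (hws : ∀ j, (r j + 1 : ℚ) ≤ ∑ i, w j i) :
    HasForms (D 0 + (∑ i, e i + ∑ j, r j)) {P | IsPrimeDivisor y P} (fun _ => 0) (E 0)
      (∑ i, e i + ∑ j, r j) (∑ i, lam i + big r s w) := by
  obtain ⟨hw, K', _, _, _, _, _, B, u, hB, hu, hH, hC⟩ := hF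
  obtain ⟨κ, hκ, hκs⟩ := exists_idx r s w
  have h0 : HasForms (D (Fin.last l) + ∑ j, r j) {P | IsPrimeDivisor y P}
      (hor (E (Fin.last l)) fun _ => 0) (E (Fin.last l)) (∑ j, r j)
      (Pool.Agent.X180.TP.big r s w) :=
    lc_low (N := D (Fin.last l) + ∑ j, r j)
      (Pool.Agent.X180.Iso.trdeg_rel' hy.2.1 (hT.1 _)) hB finSigmaFinEquiv hu
      (fun j i => ((hw j).2 i).1) hws hκ hκs
      (fun P hP => hor_nonneg le_rfl) (Pool.Agent.X180.Iso.lcHor_hor hH)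
  have h1 := (tower_forms (fun _ _ => le_rfl) hT hy.2.1 rfl h0).mono (δ' := fun _ => 0)
    (fun P _ => (hor_zero' _ P).le)
  have hn : D (Fin.last l) + ∑ j, r j = D 0 + (∑ i, e i + ∑ j, r j) := by
    rw [dims fun i => (hT.2 i).2.1, add_assoc]
  rw [hn] at h1
  exact h1

/-- **Nonvanishing.** -/
theorem dcan_non {N l c k : ℕ}
    {E : Fin (l + 1) → IntermediateField ℂ K} {D : Fin (l + 1) → ℕ} {e lam : Fin l → ℕ}
    {r s : Fin c → ℕ} {y : Fin (N + 1) → K}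
    (hy : IsCanonicalVariety y (D (Fin.last l) + ∑ j, r j))
    (hT : IsTower {P | IsPrimeDivisor y P} (fun _ => 0) E D e lam)
    {w : ∀ j, Fin (s j) → ℚ} (hF : CanonicalFibres y (E (Fin.last l)) r s w)
    (hbase : ∀ lam' : ℕ, HasForms (D 0 + (∑ i, e i + ∑ j, r j)) {P | IsPrimeDivisor y P}
      (fun _ => 0) (E 0) (∑ i, e i + ∑ j, r j) lam' →
      KodairaGe (D 0 + (∑ i, e i + ∑ j, r j)) {P | IsPrimeDivisor y P} (fun _ => 0) (k + lam')) :
    CanonicalNonvanishing y (D (Fin.last l) + ∑ j, r j) (k + ∑ i, lam i + big r s w) r s w := by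
  have h1 := dcan_top hy hT hF
  obtain ⟨hw, K', _, _, _, _, _, B, u, hB, hu, hH, hC⟩ := hF
  have hn : D (Fin.last l) + ∑ j, r j = D 0 + (∑ i, e i + ∑ j, r j) := by
    rw [dims fun i => (hT.2 i).2.1, add_assoc]
  refine Pool.Agent.X180.TP.nonvanishing_of hy (by omega) hw hB hu hC fun hws => ?_
  have h2 := hbase _ (h1 hws)
  rw [← hn, ← add_assoc k] at h2
  exact h2

/-- **Abundance.** -/
theorem dcan_ab {N l c : ℕ}
    {E : Fin (l + 1) → IntermediateField ℂ K} {D : Fin (l + 1) → ℕ} {e lam : Fin l → ℕ}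
    {r s : Fin c → ℕ} {y : Fin (N + 1) → K}
    (hy : IsCanonicalVariety y (D (Fin.last l) + ∑ j, r j))
    (hT : IsTower {P | IsPrimeDivisor y P} (fun _ => 0) E D e lam) (hle : ∀ i, lam i = e i)
    {w : ∀ j, Fin (s j) → ℚ} (hF : CanonicalFibres y (E (Fin.last l)) r s w)
    (hbase : ∀ lam' : ℕ, HasForms (D 0 + (∑ i, e i + ∑ j, r j)) {P | IsPrimeDivisor y P}
      (fun _ => 0) (E 0) (∑ i, e i + ∑ j, r j) lam' →
      KodairaGe (D 0 + (∑ i, e i + ∑ j, r j)) {P | IsPrimeDivisor y P} (fun _ => 0)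
        (D 0 + lam')) :
    CanonicalAbundance y (D (Fin.last l) + ∑ j, r j) (D (Fin.last l)) r s w := by
  have h1 := dcan_top hy hT hF
  obtain ⟨hw, K', _, _, _, _, _, B, u, hB, hu, hH, hC⟩ := hF
  have hsum : D (Fin.last l) = D 0 + ∑ i, e i := dims fun i => (hT.2 i).2.1
  have hn : D (Fin.last l) + ∑ j, r j = D 0 + (∑ i, e i + ∑ j, r j) := by
    rw [hsum, add_assoc]
  refine Pool.Agent.X180.TP.abundance_of hy hw hB hu hC fun hws => ?_
  have h2 := h1 hws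
  rw [show ∑ i, lam i = ∑ i, e i from Finset.sum_congr rfl fun i _ => hle i] at h2
  have h3 := hbase _ h2
  rw [← hn, ← add_assoc (D 0), ← hsum] at h3
  exact h3

end Pool.Agent.X180.OJ
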