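import Pool.Agent.X180.OJ.PairBaseDefs
import Pool.Agent.X180.OJ.Top
import Pool.Agent.X180.OC.Top

/-!
Fibrations of pairs over orbifold bases.
-/

set_option autoImplicit false
set_option linter.overlappingInstances false

open FF Pool.Agent.W602.GT Pool.Agent.Y172 Pool.Agent.Y191 Pool.Agent.X180.Orb
open Pool.Agent.X180.TP (dims exists_idx)
open Pool.Agent.X180.Tow (HasForms dn trdeg_dn hor_nonneg hor_le)
open Pool.Agent.X180.Iso (hor)
open Pool.Agent.X180.OP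
open Pool.Agent.X180.OD (ConstantFibres over_self)
open Pool.Agent.X180.OC (hor_bot)

namespace Pool.Agent.X180.OJ

variable {K : Type} [Field K] [Algebra ℂ K]

/-- the orbifold base as a constant orbifold -/
theorem base_const {F L : IntermediateField ℂ K} [Algebra.EssFiniteType ℂ F] (hL : L = ⊥) {d k : ℕ}
    (hF : Algebra.trdeg ℂ F = d) {S : Set (Place ℂ K)} {δ : Place ℂ K → ℝ}
    (hδ : ∀ P ∈ S, 0 ≤ δ P) (h : BaseKodGe S δ F d k) :
    ConstantFibres S δ F L d k := by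
  classical
  subst hL
  obtain ⟨m, hm, ω, hω, D0, hD0, hDi⟩ := h
  obtain ⟨T, hT⟩ : ∃ T : Place ℂ F → Set ℝ, ∀ p x, x ∈ T p ↔
      ∃ P ∈ S, ∃ ν : ℕ, Over P p ν ∧ x = max (1 - δ P) 0 / ν :=
    ⟨fun p => {x | ∃ P ∈ S, ∃ ν : ℕ, Over P p ν ∧ x = max (1 - δ P) 0 / ν}, fun _ _ => Iff.rfl⟩
  obtain ⟨a, ha⟩ : ∃ a : Place ℂ F → ℝ, ∀ p, a p = sSup (T p) := ⟨_, fun _ => rfl⟩
  have hbd : ∀ p, ∀ x ∈ T p, 0 ≤ x ∧ x ≤ 1 := by
    intro p x hx
    obtain ⟨P, hP, ν, hν, rfl⟩ := (hT p x).1 hx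
    have h1 : (1 : ℝ) ≤ ν := by exact_mod_cast hν.1
    refine ⟨by positivity, ?_⟩
    rw [div_le_one (by linarith)]
    have := hδ P hP
    exact (max_le (by linarith) zero_le_one).trans h1
  have hup : ∀ {Q P : Place ℂ K} {ε : ℕ} {p : Place ℂ F} {ν : ℕ}, Over Q P ε → Over Q p ν →
      Over P p ν := by
    intro Q P ε p ν hQ hp
    refine ⟨hp.1, fun f => ?_⟩
    rw [← (over_self hQ).2]
    exact hp.2 f
  refine ⟨K, inferInstance, inferInstance, inferInstance, inferInstance, inferInstance, F, a,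
    inferInstance, hF, fun z hz => ?_, fun x hx => ?_, fun p _ => ?_,
    ⟨m, hm, ω, fun b => ⟨(hω b).1, ?_⟩, D0, hD0, hDi⟩, ?_⟩
  · exact isAlgebraic_algebraMap (⟨z, mem_upF.2 ⟨z, hz, rfl⟩⟩ : upF K F)
  · have h1 : AlgebraicIndependent ℂ (fun j => ((x j : F) : K)) :=
      hx.map' (f := F.val) F.val.injective
    have h2 : Algebra.IsAlgebraic ℂ (upF K (⊥ : IntermediateField ℂ K)) := by
      refine ⟨fun z => ?_⟩
      obtain ⟨a, ha, hz⟩ := mem_upF.1 z.2
      obtain ⟨c, rfl⟩ := IntermediateField.mem_bot.1 ha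
      have h3 : z = algebraMap ℂ (upF K (⊥ : IntermediateField ℂ K)) c := Subtype.ext hz.symm
      rw [h3]
      exact isAlgebraic_algebraMap c
    exact h1.extendScalars _
  · rw [ha]
    exact Real.sSup_nonneg fun x hx => (hbd p x hx).1
  · rintro p ⟨P, hP, Q, ε, ν, hQ, hp⟩ _ D hD
    by_cases h0 : ω b D = 0
    · exact Or.inl h0
    right
    have hne : (T p).Nonempty := ⟨_, (hT p _).2 ⟨P, hP, ν, hup hQ hp, rfl⟩⟩
    have hm' : (0 : ℝ) < m := by exact_mod_cast hm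
    have h1 : sSup (T p) ≤ (p.ord (ω b D) : ℝ) / m + 1 := by
      refine csSup_le hne fun x hx => ?_
      obtain ⟨P', hP', ν', hν', rfl⟩ := (hT p x).1 hx
      have h2 := ((hω b).2 P' hP' p _ hν' D hD).resolve_left h0
      rw [← sub_le_iff_le_add, le_div_iff₀ hm']
      linarith
    rw [ha]
    rw [← sub_le_iff_le_add, le_div_iff₀ hm'] at h1
    linarith
  · intro P hP _ _ Q ε hQ
    obtain ⟨rfl, hQP⟩ := over_self hQ
    have h0 := hδ P hP
    refine ⟨fun _ => by rw [Nat.cast_one, one_mul]; linarith, fun p ν hp => ?_⟩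
    have hν : max (1 - δ P) 0 / (ν : ℝ) ∈ T p := (hT p _).2 ⟨P, hP, ν, hup hQ hp, rfl⟩
    have h1 : max (1 - δ P) 0 / (ν : ℝ) ≤ sSup (T p) := le_csSup ⟨1, fun x hx => (hbd p x hx).2⟩ hν
    have h2 : (0 : ℝ) < ν := by exact_mod_cast hp.1
    rw [div_le_iff₀ h2] at h1
    rw [ha, Nat.cast_one, one_mul, mul_comm (ν : ℝ)]
    exact (le_max_left _ _).trans h1

/-- the orbifold base -/
theorem pair_base {F : IntermediateField ℂ K} [Algebra.EssFiniteType ℂ F] {d e k lam : ℕ}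
    (hK : Algebra.trdeg ℂ K = (d + e : ℕ)) (hF : Algebra.trdeg ℂ F = d) {S : Set (Place ℂ K)}
    {δ : Place ℂ K → ℝ} (hδ : ∀ P ∈ S, 0 ≤ δ P)
    (h : BaseKodGe S δ F d k) (h0 : HasForms (d + e) S (hor F δ) F e lam) :
    KodairaGe (d + e) S δ (k + lam) := by
  have h1 := OD.part_const (bot_le : (⊥ : IntermediateField ℂ K) ≤ F) (d := 0) (e' := d + e) hK
    (zero_add _).symm (by
      have h3 : Algebra.trdeg ℂ (⊥ : IntermediateField ℂ K) = 0 := by
        refine trdeg_eq_zero_iff.2 ?_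
        infer_instance
      rw [h3]; rfl) (by rw [zero_add]; exact hF) hδ (base_const rfl hF hδ h)
  rw [hor_bot rfl δ] at h1
  have h3 := tower_part bot_le (Pool.Agent.X180.Iso.trdeg_rel hK hF) (δ := δ)
    (fun P _ => by simp) h1 h0
  exact point_kod h3

end Pool.Agent.X180.OJ
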