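import Pool.Agent.X180.OD.Defs

/-!
Definitions: towers whose steps are products of constant orbifolds and moving log canonical
arrangements.
-/

set_option autoImplicit false

open FF Pool.Agent.W602.GT Pool.Agent.Y172 Pool.Agent.Y191
open Pool.Agent.X180.OP (big)
open Pool.Agent.X180.OD (images OrbifoldKodGe)

namespace Pool.Agent.X180.OJ

variable {K : Type} [Field K] [Algebra ℂ K]

open Classical in
/-- Let `K`, `E` and `L` be the function fields of `X`, `W` and `Z`, with dominant rational maps
`X ⇢ W ⇢ Z`, where `W` has dimension `e` over `Z`; let `S` be a set of prime divisors of `X`, and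
`δ P` the coefficient of `P` in the boundary. The fibres of `W` over `Z`, with the boundary and the
multiplicities of the fibres of `X` over `W`, correspond to the product of one orbifold `(V, a)` of
dimension `d` and Kodaira dimension at least `h`, and of moving log canonical arrangements, and
`lam` is the sum of `h` and the log Kodaira dimension of the arrangements. That is, there is a variety
`X'` with a generically finite map `X' ⇢ X`, with the function field `K'`, and a rational map of `X'`
to the product of `V` (with the function field `M`) and of projective spaces of dimensions `r j ≥ 1`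
(`u ⟨j, k⟩` are the affine coordinates), such that the fibres of `X'` over `Z` dominate this product
(functions `x j` in `M` which are algebraically independent over `ℂ` are, together with the
`u ⟨j, k⟩`, algebraically independent over `L`), and with the same fibres as the map to `W`, up to
finite maps (`M` and the `u ⟨j, k⟩` are algebraic over `E`, and `e = d + ∑ r j`). `A j i` are the
coefficients of hyperplanes, algebraic over `L`, with weights `w j i` such that the arrangement is log
canonical (`LcArr`) and the sum of the weights is at least `r j + 1` for each `j`. `a p` is the log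
discrepancy of the orbifold at the place `p` of `M`; only the places below those over `S` are
considered (`images`), where `a p ≥ 0`. For each place `Q` of `K'` over a prime divisor `P` of `X` in
`S` which dominates `Z` and does not dominate `W`, with coefficient `δ P < 1` and with ramification
index `ε`, let `e' j i` be the multiplicities of the hyperplanes at `Q`, and let `R` be the sum over
`j` of `mx A j (e' j) - ∑ i, w j i * e' j i`. Then `ε (1 - δ P) ≤ ν a p + R` if `Q` lies over the place
`p` of `M` with ramification index `ν`, and `ε (1 - δ P) ≤ R` if `Q` is trivial on `M` and some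
`e' j i` is not zero, and `ε (1 - δ P) ≤ 1` if `Q` is trivial on `M` and all `e' j i` are zero. -/
def JointFibres (S : Set (Place ℂ K)) (δ : Place ℂ K → ℝ) (E L : IntermediateField ℂ K)
    (e lam : ℕ) : Prop :=
  ∃ (c d h : ℕ) (r s : Fin c → ℕ) (w : ∀ j, Fin (s j) → ℚ), e = d + ∑ j, r j ∧
    lam = h + big r s w ∧ (∀ j, 1 ≤ r j ∧ (∀ i, 0 ≤ w j i) ∧ (r j + 1 : ℚ) ≤ ∑ i, w j i) ∧
  ∃ (K' : Type) (_ : Field K') (_ : Algebra ℂ K') (_ : Algebra K K') (_ : IsScalarTower ℂ K K')
    (_ : FiniteDimensional K K') (A : ∀ j, Fin (s j) → Fin (r j + 1) → K')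
    (u : (Σ j, Fin (r j)) → K') (M : IntermediateField ℂ K') (a : Place ℂ M → ℝ),
    LcArr (upF K' L) A w ∧ Algebra.EssFiniteType ℂ M ∧ Algebra.trdeg ℂ M = d ∧
    (∀ z ∈ M, IsAlgebraic (upF K' E) z) ∧ (∀ b, IsAlgebraic (upF K' E) (u b)) ∧
    (∀ x : Fin d → M, AlgebraicIndependent ℂ x →
      AlgebraicIndependent (upF K' L) (Sum.elim (fun j => ((x j : M) : K')) u)) ∧
    (∀ p ∈ images S K' M, 0 ≤ a p) ∧ OrbifoldKodGe M d (images S K' M) a h ∧
    ∀ P ∈ S, δ P < 1 → (∀ f ∈ L, f ≠ 0 → P.ord f = 0) → (∃ f ∈ E, f ≠ 0 ∧ P.ord f ≠ 0) →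
      ∀ (Q : Place ℂ K') (ε : ℕ), Over Q P ε → ∀ (c' : Fin c → ℤ) (e' : ∀ j, Fin (s j) → ℕ),
        (∀ j, MOrd Q (A j) (hcd u j) (c' j) (e' j)) →
        ((∀ f : M, Q.ord (f : K') = 0) → (ε : ℝ) * (1 - δ P) ≤
          if ∃ j i, e' j i ≠ 0 then
            ∑ j, ((mx A j (e' j) : ℝ) - ∑ i, (w j i : ℝ) * e' j i) else 1) ∧
        ∀ (p : Place ℂ M) (ν : ℕ), Over Q p ν → (ε : ℝ) * (1 - δ P) ≤
          ν * a p + ∑ j, ((mx A j (e' j) : ℝ) - ∑ i, (w j i : ℝ) * e' j i)

/-- The tower `X ⇢ W_l ⇢ ... ⇢ W_1 ⇢ W_0`: the `E i` are the function fields of varieties of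
dimensions `D i`, each contained in the next one, and the fibres of `W_{i+1}` over `W_i`, of dimension
`e i`, with the boundary and the multiplicities of the fibres of `X` over `W_{i+1}`, are as in
`JointFibres`, of log Kodaira dimension at least `lam i`, for each `i < l`. -/
def IsTower (S : Set (Place ℂ K)) (δ : Place ℂ K → ℝ) {l : ℕ}
    (E : Fin (l + 1) → IntermediateField ℂ K) (D : Fin (l + 1) → ℕ) (e lam : Fin l → ℕ) : Prop :=
  (∀ i, Algebra.trdeg ℂ (E i) = D i) ∧
  ∀ i : Fin l, E i.castSucc ≤ E i.succ ∧ D i.succ = D i.castSucc + e i ∧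
    JointFibres S δ (E i.succ) (E i.castSucc) (e i) (lam i)

end Pool.Agent.X180.OJ
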