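import Pool.Agent.X180.OJ.Ext

/-!
The estimate of the forms of the product of a constant orbifold and arrangements.
-/

set_option autoImplicit false
set_option linter.overlappingInstances false
set_option linter.unusedSectionVars false

open FF Pool.Agent.W602.GT Pool.Agent.W603.LV Pool.Agent.W619.PQ Pool.Agent.TH585.SV
open Pool.Agent.W619.Y Pool.Agent.Y172 Pool.Agent.Y191 Pool.Agent.X180.Iso Pool.Agent.X180.Tow
open Pool.Agent.X180.Orb Pool.Agent.X180.OC

namespace Pool.Agent.X180.OJ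

section

variable {K K' : Type} [Field K] [Field K'] [Algebra ℂ K] [Algebra ℂ K'] [Algebra K K']
  [IsScalarTower ℂ K K'] [FiniteDimensional K K'] {c : ℕ} {r q : Fin c → ℕ}
variable {A : ∀ j, Fin (q j) → Fin (r j + 1) → K'} {u : (Σ j, Fin (r j)) → K'}
variable {L : IntermediateField ℂ K} {w : ∀ j, Fin (q j) → ℚ}

open Classical in
/-- the estimate of the forms of an arrangement at the places which are trivial on `L` -/
theorem movf_est3 {d M : ℕ} (hA : LcArr (upF K' L) A w) (hw0 : ∀ j i, 0 ≤ w j i)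
    (hws : ∀ j, (r j + 1 : ℚ) ≤ ∑ i, w j i) (hl : ∀ j i, lmv A u j i ≠ 0) (σ : (Σ j, Fin (r j)) ≃ Fin d)
    {P : Place ℂ K} {Q : Place ℂ K'} {ε : ℕ} (hQ : Over Q P ε)
    (htr : ∀ f ∈ L, f ≠ 0 → P.ord f = 0)
    {G : Fin d → Derivation L K K} (hG : ∀ i f, P.Reg f → P.Reg (G i f))
    {G' : Fin d → Derivation (upF K' L) K' K'}
    (hG' : ∀ i f, G' i (algebraMap K K' f) = algebraMap K K' (G i f))
    (hdep : ∀ I : ∀ j, Fin (r j + 1) → Fin (q j),
      AlgebraicIndependent (upF K' L) (fun l => quo A u I (σ.symm l)) →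
        ∃ z : K', z ≠ 0 ∧ Q.ord z ≠ 0 ∧ IsAlgebraic (IntermediateField.adjoin (upF K' L)
          (Set.range fun l => quo A u I (σ.symm l))) z) :
    ∃ (c' : Fin c → ℤ) (e : ∀ j, Fin (q j) → ℕ), (∀ j, MOrd Q (A j) (hcd u j) (c' j) (e j)) ∧
      ∀ (v : ∀ j, Fin (q j) → ℕ) (J : Fin M → ∀ j, Fin (r j + 1) → Fin (q j)),
        ((∀ j, ∑ i, v j i = (r j + 1) * M) ∧ ∀ j i, (v j i : ℚ) ≤ M * w j i) →
        GeR Q (M * ((if ∃ j i, e j i ≠ 0 then
            ∑ j, ((mx A j (e j) : ℝ) - ∑ i, (w j i : ℝ) * e j i) else 1) - ε))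
          (movf σ A u M v (∏ t, cdet A (J t)) (fun i => (G' i).restrictScalars ℂ)) := by
  have hkA : ∀ l j i k, ((G' l).restrictScalars ℂ) (A j i k) = 0 := fun l j i k =>
    der_alg (G' l) ((hA.1 j i).2 k)
  have hM0 : (0 : ℝ) ≤ M := Nat.cast_nonneg _
  have hup : ∀ f ∈ upF K' L, f ≠ 0 → Q.ord f = 0 := by
    rintro f hf hf0
    obtain ⟨a, ha, rfl⟩ := mem_upF.1 hf
    have ha0 : a ≠ 0 := fun h => hf0 (by rw [h, map_zero])
    rw [hQ.2, htr a ha ha0, mul_zero]
  have hAge : ∀ j i k, Ge Q 0 (A j i k) := fun j i k => triv_ge hup ((hA.1 j i).2 k)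
  have ho : ∀ j, ∃ c' ε, MOrd Q (A j) (hcd u j) c' ε := fun j =>
    exists_mord (hAge j) ⟨0, by rw [hcd_zero]; exact one_ne_zero⟩ (hl j)
  choose c' e' ho using ho
  refine ⟨c', e', ho, fun v J hadm => ?_⟩
  have hC : Ge Q 0 (∏ t, cdet A (J t)) := by
    have := Ge.prod (P := Q) Finset.univ (fun t => cdet A (J t)) (fun _ => 0)
      (fun t _ => triv_ge hup (hA.alg_cdet (J t)))
    simpa using this
  have hlo : ∀ j i, Q.ord (lmv A u j i) = c' j + e' j i := fun j i => (ho j).2.2 i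
  have hbas : ∀ j, ∃ I : Fin (r j + 1) → Fin (q j),
      (Matrix.of fun k a => A j (I k) a).det ≠ 0 ∧ mx A j (e' j) = ∑ k, e' j (I k) := by
    intro j
    obtain ⟨I, hI, -⟩ := hA.pos_basis hw0 hws j
    obtain ⟨I', hI', h2⟩ := Finset.exists_mem_eq_sup (Finset.univ.filter
      fun I : Fin (r j + 1) → Fin (q j) => (Matrix.of fun k a => A j (I k) a).det ≠ 0)
      ⟨I, Finset.mem_filter.2 ⟨Finset.mem_univ _, hI⟩⟩ fun I => ∑ k, e' j (I k)
    exact ⟨I', (Finset.mem_filter.1 hI').2, h2⟩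
  choose I hI hIm using hbas
  have hd : ∀ j, (Matrix.of fun k a => A j (I j k) a).det ≠ 0 ∧
      Q.ord (Matrix.of fun k a => A j (I j k) a).det = 0 := fun j =>
    ⟨hI j, triv_ord0 hup (alg_det fun k a => (hA.1 _ _).2 _) (hI j)⟩
  by_cases he : ∃ j i, e' j i ≠ 0
  · rw [if_pos he]
    have h1 := movf_lc σ hadm.1 hC hd hl hkA (ν := ε)
      (lift_det_gen (f := fun l => quo A u I (σ.symm l)) hQ hG hG').1 ho
    rcases h1 with h1 | h1
    · exact Or.inl h1
    right
    have h3 : ((∑ j, ((M : ℤ) * ∑ k, (e' j (I j k) : ℤ) - ∑ i, (v j i : ℤ) * e' j i) -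
        M * (ε : ℤ) : ℤ) : ℝ) ≤
        (Q.ord (movf σ A u M v (∏ t, cdet A (J t))
          fun i => (G' i).restrictScalars ℂ) : ℝ) := by exact_mod_cast h1
    refine le_trans ?_ h3
    push_cast
    have h4 : (M : ℝ) * ∑ j, ((mx A j (e' j) : ℝ) - ∑ i, (w j i : ℝ) * e' j i) ≤
        ∑ j, ((M : ℝ) * ∑ k, (e' j (I j k) : ℝ) - ∑ i, (v j i : ℝ) * e' j i) := by
      rw [Finset.mul_sum]
      refine Finset.sum_le_sum fun j _ => ?_
      rw [hIm j, mul_sub, Finset.mul_sum (f := fun i => (w j i : ℝ) * e' j i)]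
      push_cast
      refine sub_le_sub_left (Finset.sum_le_sum fun i _ => ?_) _
      have h5 : (v j i : ℝ) ≤ M * w j i := by exact_mod_cast hadm.2 j i
      have h6 : (0 : ℝ) ≤ e' j i := Nat.cast_nonneg _
      nlinarith
    linarith
  · rw [if_neg he]
    push Not at he
    have h1 := movf_lc σ hadm.1 hC hd hl hkA (ν := ε - 1) (by
      have h2 := (lift_det_gen (f := fun l => quo A u I (σ.symm l)) hQ hG hG').2 htr
        (fun l => by
          change Q.ord (lmv A u _ _ / lmv A u _ _) = 0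
          rw [Q.ord_div (hl _ _) (hl _ _), hlo, hlo, he, he, sub_self]) (hdep I)
      rw [neg_sub]
      exact h2) ho
    rcases h1 with h1 | h1
    · exact Or.inl h1
    right
    have h2 : ∑ j, ((M : ℤ) * ∑ k, (e' j (I j k) : ℤ) - ∑ i, (v j i : ℤ) * e' j i) = 0 :=
      Finset.sum_eq_zero fun j _ => by simp [he]
    rw [h2, zero_sub] at h1
    have h3 : ((-(M * ((ε : ℤ) - 1)) : ℤ) : ℝ) ≤
        (Q.ord (movf σ A u M v (∏ t, cdet A (J t))
          fun i => (G' i).restrictScalars ℂ) : ℝ) := by exact_mod_cast h1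
    refine le_trans (le_of_eq ?_) h3
    push_cast
    ring

/-- the coordinates and the forms of the constant orbifold at a place -/
theorem vpart {N d m h : ℕ} (hN : Algebra.trdeg ℂ K = N)
    (M : IntermediateField ℂ K') [Algebra.EssFiniteType ℂ M] (hM : Algebra.trdeg ℂ M = d)
    {y : Fin d → M} {Ey : Fin d → Derivation ℂ M M} (hy : IsTranscendenceBasis ℂ y)
    (hEy : ∀ i j, Ey i (y j) = if i = j then 1 else 0)
    {β : Place ℂ M → ℝ}
    {ω : Fin (h + 1) → (Fin d → Derivation ℂ M M) → M}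
    {P : Place ℂ K} (hPd : Divisorial N P) {Q : Place ℂ K'} {ε : ℕ} (hQ : Over Q P ε)
    (hωr : ∀ b, ∀ (p : Place ℂ M) (ν : ℕ), Over Q p ν → Divisorial d p →
      ∀ D, (∀ i, DerReg p (D i)) → ω b D = 0 ∨ -(m * (1 - β p)) ≤ (p.ord (ω b D) : ℝ)) :
    ∃ (z : Fin d → M) (Ez : Fin d → Derivation ℂ M M), IsTranscendenceBasis ℂ z ∧
      (∀ i j, Ez i (z j) = if i = j then 1 else 0) ∧
      (((∀ f : M, Q.ord (f : K') = 0) ∧
        ∀ b, GeR Q 0 ((∏ j, ((z j : M) : K')) ^ m * ((ω b Ez : M) : K'))) ∨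
      ∃ (p : Place ℂ M) (ν : ℕ), Over Q p ν ∧ (∃ i0, Q.ord ((z i0 : M) : K') = ν) ∧
        ∀ b, GeR Q (m * (ν * β p)) ((∏ j, ((z j : M) : K')) ^ m * ((ω b Ez : M) : K'))) := by
  classical
  have hN' : Algebra.trdeg ℂ K' = N := by
    have h1 : Algebra.trdeg K K' = 0 := trdeg_eq_zero_iff.2 inferInstance
    rw [← hN, ← _root_.trdeg_add_eq ℂ K (A := K'), h1, add_zero]
  by_cases htM : ∀ f : M, Q.ord (f : K') = 0
  · refine ⟨y, Ey, hy, hEy, Or.inl ⟨htM, fun b => ?_⟩⟩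
    have hprod : Ge Q 0 (∏ j, ((y j : M) : K')) := by
      have h1 := Ge.prod (P := Q) Finset.univ (fun j => ((y j : M) : K')) (fun _ => 0)
        fun j _ => Or.inr (htM (y j)).ge
      simpa using h1
    have hωE : Ge Q 0 ((ω b Ey : M) : K') := Or.inr (htM _).ge
    have h2 := (hprod.pow m).mul hωE
    rw [mul_zero, add_zero] at h2
    rcases h2 with h2 | h2
    · exact Or.inl h2
    · right
      exact_mod_cast h2
  · push Not at htM
    obtain ⟨ν, p, hp⟩ := exists_over (K := M) Q htM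
    have hdiv : IsDivisorial p d := pDIVR ℂ M K' d N p Q ν hM hN' hp (divisorial_up hQ hPd)
    obtain ⟨z, Ez, i0, hz, hEz, hz1, hzr, hpres⟩ := pFRAME ℂ M d hM
      (fun y hy => fin_over y hy) p hdiv
    have hzQ : ∀ j, 0 ≤ Q.ord ((z j : M) : K') := by
      intro j
      have h1 : Q.ord ((z j : M) : K') = ν * p.ord (z j) := hp.2 (z j)
      rw [h1]
      rcases hzr j with h2 | h2
      · rw [h2, p.ord_zero, mul_zero]
      · positivity
    have hzi : Q.ord ((z i0 : M) : K') = ν := by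
      have h1 : Q.ord ((z i0 : M) : K') = ν * p.ord (z i0) := hp.2 (z i0)
      rw [h1, hz1, mul_one]
    have hprod := ge_prod_ord hzQ hzi
    refine ⟨z, Ez, hz, hEz, Or.inr ⟨p, ν, hp, ⟨i0, hzi⟩, fun b => ?_⟩⟩
    have hωz : GeR Q (-(m * (ν * (1 - β p)))) ((ω b Ez : M) : K') := by
      rcases hωr b p ν hp hdiv Ez hpres with h1 | h1
      · left
        rw [h1]
        rfl
      · right
        have h2 : Q.ord ((ω b Ez : M) : K') = ν * p.ord (ω b Ez) := hp.2 (ω b Ez)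
        rw [h2]
        push_cast
        have h3 := mul_le_mul_of_nonneg_left h1 (Nat.cast_nonneg (α := ℝ) ν)
        linarith
    have h3 : GeR Q (m * ν) ((∏ j, ((z j : M) : K')) ^ m) := by
      rcases hprod.pow m with h4 | h4
      · exact Or.inl h4
      · right
        exact_mod_cast h4
    refine (h3.mul hωz).mono (le_of_eq ?_)
    ring

end

end Pool.Agent.X180.OJ
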