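import Pool.Agent.X180.OC.Part
import Pool.Agent.X180.Orb.LcPart

/-!
Arrangements with one more factor, a simplex.
-/

set_option autoImplicit false
set_option linter.overlappingInstances false
set_option linter.unusedSectionVars false

open FF Pool.Agent.W602.GT Pool.Agent.W603.LV Pool.Agent.W619.PQ Pool.Agent.TH585.SV
open Pool.Agent.Y172 Pool.Agent.Y191 Pool.Agent.X180.Iso Pool.Agent.X180.Tow

namespace Pool.Agent.X180.OJ

section ext

variable {F : Type} [Field F] {c : ℕ} {r q : Fin c → ℕ} (d : ℕ)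

/-- the dimensions of the factors -/
abbrev rx (r : Fin c → ℕ) : Fin (c + 1) → ℕ := Fin.cons d r

/-- the numbers of hyperplanes -/
abbrev qx (q : Fin c → ℕ) : Fin (c + 1) → ℕ := Fin.cons (d + 1) q

/-- the coefficients -/
def Ax (A : ∀ j, Fin (q j) → Fin (r j + 1) → F) (j : Fin (c + 1)) :
    Fin (qx d q j) → Fin (rx d r j + 1) → F :=
  Fin.cases (motive := fun j => Fin (qx d q j) → Fin (rx d r j + 1) → F)
    (fun (i : Fin (d + 1)) (k : Fin (d + 1)) => if i = k then 1 else 0) (fun j => A j) j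

/-- the weights -/
def wx (w : ∀ j, Fin (q j) → ℚ) (j : Fin (c + 1)) : Fin (qx d q j) → ℚ :=
  Fin.cases (motive := fun j => Fin (qx d q j) → ℚ) (fun _ : Fin (d + 1) => 1) (fun j => w j) j

/-- the exponents -/
def vx (M : ℕ) (v : ∀ j, Fin (q j) → ℕ) (j : Fin (c + 1)) : Fin (qx d q j) → ℕ :=
  Fin.cases (motive := fun j => Fin (qx d q j) → ℕ) (fun _ : Fin (d + 1) => M) (fun j => v j) j

/-- the bases -/
def Jx (J : ∀ j, Fin (r j + 1) → Fin (q j)) (j : Fin (c + 1)) :
    Fin (rx d r j + 1) → Fin (qx d q j) :=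
  Fin.cases (motive := fun j => Fin (rx d r j + 1) → Fin (qx d q j))
    (fun k : Fin (d + 1) => k) (fun j => J j) j

variable {d}

/-- the coordinates -/
def ux (z : Fin d → F) (u : (Σ j, Fin (r j)) → F) (s : Σ j : Fin (c + 1), Fin (rx d r j)) : F :=
  Fin.cases (motive := fun j => Fin (rx d r j) → F) z (fun j k => u ⟨j, k⟩) s.1 s.2

variable {A : ∀ j, Fin (q j) → Fin (r j + 1) → F} {z : Fin d → F} {u : (Σ j, Fin (r j)) → F}

theorem Ax0 (i k : Fin (d + 1)) : Ax d A 0 i k = if i = k then (1 : F) else 0 := rfl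

theorem det_id : (Matrix.of fun (k a : Fin (d + 1)) => if k = a then (1 : F) else 0).det = 1 := by
  have h1 : (Matrix.of fun (k a : Fin (d + 1)) => if k = a then (1 : F) else 0) = 1 := by
    ext i k
    rw [Matrix.one_apply]
    rfl
  rw [h1, Matrix.det_one]

theorem hcd_x0 : hcd (ux z u) 0 = (Fin.cons 1 z : Fin (d + 1) → F) := rfl

theorem hcd_xs (j : Fin c) : hcd (ux z u) j.succ = hcd u j := rfl

theorem lmv_x0 (i : Fin (d + 1)) :
    lmv (Ax d A) (ux z u) 0 i = (Fin.cons 1 z : Fin (d + 1) → F) i := by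
  unfold lmv
  rw [hcd_x0]
  change ∑ k : Fin (d + 1), (if i = k then (1 : F) else 0) * (Fin.cons 1 z : Fin (d + 1) → F) k = _
  simp

theorem lmv_xs (j : Fin c) (i : Fin (q j)) : lmv (Ax d A) (ux z u) j.succ i = lmv A u j i := rfl

theorem cdet_x (J : ∀ j, Fin (r j + 1) → Fin (q j)) : cdet (Ax d A) (Jx d J) = cdet A J := by
  unfold cdet
  rw [Fin.prod_univ_succ]
  have h2 : (Matrix.of fun k a => Ax d A 0 (Jx d J 0 k) a).det = 1 := det_id
  rw [h2, one_mul]
  rfl

theorem den_x (M : ℕ) (v : ∀ j, Fin (q j) → ℕ) :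
    ∏ j, ∏ i, lmv (Ax d A) (ux z u) j i ^ vx d M v j i =
      (∏ k, z k) ^ M * ∏ j, ∏ i, lmv A u j i ^ v j i := by
  rw [Fin.prod_univ_succ]
  congr 1
  have h1 : ∏ i : Fin (d + 1), (Fin.cons 1 z : Fin (d + 1) → F) i ^ M = (∏ k, z k) ^ M := by
    rw [Finset.prod_pow]
    congr 1
    rw [Fin.prod_univ_succ]
    simp only [Fin.cons_zero, Fin.cons_succ, one_mul]
  rw [← h1]
  refine Finset.prod_congr rfl fun i _ => ?_
  exact congrArg (· ^ M) (lmv_x0 (A := A) (u := u) i)

theorem mx_xs (j : Fin c) (e : Fin (q j) → ℕ) : mx (Ax d A) j.succ e = mx A j e := rfl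

theorem le_mx_x0 (e : Fin (d + 1) → ℕ) : ∑ i, e i ≤ mx (Ax d A) 0 e := by
  classical
  have h1 : ∀ (B : Fin (d + 1) → Fin (d + 1) → F), (Matrix.of fun k a => B k a).det ≠ 0 →
      ∑ i, e i ≤ (Finset.univ.filter fun I : Fin (d + 1) → Fin (d + 1) =>
        (Matrix.of fun k a => B (I k) a).det ≠ 0).sup fun I => ∑ k, e (I k) := by
    intro B hB
    exact Finset.le_sup (f := fun I : Fin (d + 1) → Fin (d + 1) => ∑ k, e (I k)) (b := id)
      (Finset.mem_filter.2 ⟨Finset.mem_univ _, hB⟩)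
  have h2 := h1 (fun i k => if i = k then (1 : F) else 0) (by rw [det_id]; exact one_ne_zero)
  exact h2

end ext

section lc

variable {F : Type} [Field F] [Algebra ℂ F] {c d : ℕ} {r q : Fin c → ℕ}
variable {A : ∀ j, Fin (q j) → Fin (r j + 1) → F} {L : IntermediateField ℂ F}
  {w : ∀ j, Fin (q j) → ℚ}

theorem lc_x (hA : LcArr L A w) : LcArr L (Ax d A) (wx d w) := by
  classical
  refine ⟨fun j => ?_, fun j => ?_⟩
  · refine Fin.cases ?_ (fun j => ?_) j
    · intro i
      refine ⟨⟨i, ?_⟩, fun k => ?_⟩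
      · have h1 : Ax d A 0 i i = 1 := (Ax0 (A := A) i i).trans (if_pos rfl)
        rw [h1]
        exact one_ne_zero
      · have h1 : Ax d A 0 i k = if (show Fin (d + 1) from i) = (show Fin (d + 1) from k)
            then (1 : F) else 0 := Ax0 (A := A) i k
        rw [h1]
        split_ifs
        · exact isAlgebraic_one
        · exact isAlgebraic_zero
    · exact hA.1 j
  · refine Fin.cases ?_ (fun j => ?_) j
    · intro S _
      have h5 : ∀ S : Finset (Fin (d + 1)), Module.finrank F ↥(Submodule.span F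
          ((fun (i k : Fin (d + 1)) => if i = k then (1 : F) else 0) '' (S : Set (Fin (d + 1))))) =
          S.card := by
        intro S
        have h1 : LinearIndependent F
            (fun (i : Fin (d + 1)) (k : Fin (d + 1)) => if i = k then (1 : F) else 0) := by
          have h2 := (Pi.basisFun F (Fin (d + 1))).linearIndependent
          convert h2 using 1
          funext i
          funext k
          rw [Pi.basisFun_apply, Pi.single_apply]
          by_cases h : i = k
          · rw [if_pos h, if_pos h.symm]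
          · rw [if_neg h, if_neg (Ne.symm h)]
        have h3 := h1.comp (fun i : S => (i : Fin (d + 1))) Subtype.val_injective
        have h4 := finrank_span_eq_card h3
        rw [Fintype.card_coe] at h4
        have h5 : (fun (i k : Fin (d + 1)) => if i = k then (1 : F) else 0) ''
            (S : Set (Fin (d + 1))) = Set.range ((fun (i k : Fin (d + 1)) =>
              if i = k then (1 : F) else 0) ∘ fun i : S => (i : Fin (d + 1))) := by
          ext x
          constructor
          · rintro ⟨i, hi, rfl⟩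
            exact ⟨⟨i, hi⟩, rfl⟩
          · rintro ⟨i, rfl⟩
            exact ⟨i, i.2, rfl⟩
        rw [← h4, h5]
      have h6 : rk (Ax d A) 0 S = S.card := h5 S
      have h7 : ∑ i ∈ S, wx d w 0 i = (S.card : ℚ) := by
        have h8 : ∀ S : Finset (Fin (d + 1)), ∑ i ∈ S, (1 : ℚ) = (S.card : ℚ) := fun S => by simp
        exact h8 S
      rw [h6, h7]
    · exact hA.2 j

theorem w0_x (hw : ∀ j i, 0 ≤ w j i) : ∀ j i, 0 ≤ wx d w j i := by
  intro j
  refine Fin.cases ?_ (fun j => ?_) j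
  · intro i
    exact zero_le_one
  · exact hw j

theorem ws_x (hw : ∀ j, (r j + 1 : ℚ) ≤ ∑ i, w j i) :
    ∀ j, ((rx d r j : ℕ) + 1 : ℚ) ≤ ∑ i, wx d w j i := by
  intro j
  refine Fin.cases ?_ (fun j => ?_) j
  · change ((d : ℕ) + 1 : ℚ) ≤ ∑ i : Fin (d + 1), 1
    simp
  · exact hw j

theorem adm_x {M : ℕ} {v : ∀ j, Fin (q j) → ℕ} (h : (∀ j, ∑ i, v j i = (r j + 1) * M) ∧
    ∀ j i, (v j i : ℚ) ≤ M * w j i) :
    (∀ j, ∑ i, vx d M v j i = (rx d r j + 1) * M) ∧
      ∀ j i, (vx d M v j i : ℚ) ≤ M * wx d w j i := by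
  refine ⟨fun j => ?_, fun j => ?_⟩
  · refine Fin.cases ?_ (fun j => ?_) j
    · change ∑ i : Fin (d + 1), M = (d + 1) * M
      simp
    · exact h.1 j
  · refine Fin.cases ?_ (fun j => ?_) j
    · intro i
      change (M : ℚ) ≤ M * 1
      rw [mul_one]
    · exact h.2 j

theorem J_x {M : ℕ} {v : ∀ j, Fin (q j) → ℕ} {J : Fin M → ∀ j, Fin (r j + 1) → Fin (q j)}
    (hJ : ∀ j (f : Fin (q j) → F), ∏ t, ∏ k, f (J t j k) = ∏ i, f i ^ v j i) :
    ∀ j (f : Fin (qx d q j) → F), ∏ t, ∏ k, f (Jx d (J t) j k) = ∏ i, f i ^ vx d M v j i := by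
  intro j
  refine Fin.cases ?_ (fun j => ?_) j
  · intro f
    have h1 : ∀ f : Fin (d + 1) → F, ∏ _t : Fin M, ∏ k, f k = ∏ i, f i ^ M := fun f => by
      rw [Finset.prod_const, Finset.card_univ, Fintype.card_fin, Finset.prod_pow]
    exact h1 f
  · exact hJ j

end lc

section idx

variable {c d : ℕ} {r : Fin c → ℕ}

/-- the indices -/
noncomputable def chi : Fin d ⊕ (Σ j, Fin (r j)) ≃ Σ j : Fin (c + 1), Fin (rx d r j) :=
  Equiv.ofBijective (fun b => Sum.elim (fun k => (⟨0, k⟩ : Σ j : Fin (c + 1), Fin (rx d r j)))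
    (fun s => ⟨s.1.succ, s.2⟩) b) (by
    constructor
    · rintro (a | ⟨j, a⟩) (b | ⟨j', b⟩) h
      · have h1 := Sigma.mk.inj_iff.1 h
        exact congrArg Sum.inl (eq_of_heq h1.2)
      · have h1 := (Sigma.mk.inj_iff.1 h).1
        exact absurd h1 (Fin.succ_ne_zero _).symm
      · have h1 := (Sigma.mk.inj_iff.1 h).1
        exact absurd h1 (Fin.succ_ne_zero _)
      · obtain ⟨h1, h2⟩ := Sigma.mk.inj_iff.1 h
        have h3 : j = j' := Fin.succ_injective _ h1
        subst h3
        have h4 : a = b := eq_of_heq h2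
        rw [h4]
    · rintro ⟨j, k⟩
      revert k
      refine Fin.cases ?_ (fun j => ?_) j
      · intro k
        exact ⟨Sum.inl k, rfl⟩
      · intro k
        exact ⟨Sum.inr ⟨j, k⟩, rfl⟩)

theorem ux_chi {F : Type} (z : Fin d → F) (u : (Σ j, Fin (r j)) → F)
    (b : Fin d ⊕ (Σ j, Fin (r j))) : ux z u (chi b) = Sum.elim z u b := by
  rcases b with b | b <;> rfl

end idx

end Pool.Agent.X180.OJ
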