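import Pool.Agent.X180.OJ.Est

/-!
The estimate of the forms of the product of a constant orbifold and arrangements.
-/

set_option autoImplicit false
set_option linter.overlappingInstances false
set_option linter.unusedSectionVars false

open FF Pool.Agent.W602.GT Pool.Agent.W603.LV Pool.Agent.W619.PQ Pool.Agent.TH585.SV
open Pool.Agent.W619.Y Pool.Agent.Y172 Pool.Agent.Y191 Pool.Agent.X180.Iso Pool.Agent.X180.Tow
open Pool.Agent.X180.Orb Pool.Agent.X180.OC

namespace Pool.Agent.X180.OJ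

section

variable {K K' : Type} [Field K] [Field K'] [Algebra ℂ K] [Algebra ℂ K'] [Algebra K K']
  [IsScalarTower ℂ K K'] [FiniteDimensional K K'] {c d : ℕ} {r q : Fin c → ℕ}
variable {A : ∀ j, Fin (q j) → Fin (r j + 1) → K'} {u : (Σ j, Fin (r j)) → K'}
variable {L : IntermediateField ℂ K} {w : ∀ j, Fin (q j) → ℚ}

theorem first_nonneg (e : Fin (d + 1) → ℕ) :
    0 ≤ (mx (Ax d A) 0 e : ℝ) - ∑ i : Fin (d + 1), ((wx d w 0 i : ℚ) : ℝ) * e i := by
  have h1 := le_mx_x0 (A := A) e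
  have h2 : ∑ i : Fin (d + 1), ((wx d w 0 i : ℚ) : ℝ) * e i = ((∑ i, e i : ℕ) : ℝ) := by
    push_cast
    refine Finset.sum_congr rfl fun i _ => ?_
    have h3 : (wx d w 0 i : ℚ) = 1 := rfl
    rw [h3, Rat.cast_one, one_mul]
  rw [h2]
  have h3 : ((∑ i, e i : ℕ) : ℝ) ≤ mx (Ax d A) 0 e := by exact_mod_cast h1
  linarith

/-- the form of the larger arrangement -/
theorem movf_x {D M0 : ℕ} (τ : Fin d ⊕ (Σ j, Fin (r j)) ≃ Fin D) (z : Fin d → K')
    (v : ∀ j, Fin (q j) → ℕ) (J : Fin M0 → ∀ j, Fin (r j + 1) → Fin (q j))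
    (G : Fin D → Derivation ℂ K' K') :
    movf (chi.symm.trans τ) (Ax d A) (ux z u) M0 (vx d M0 v) (∏ t, cdet (Ax d A) (Jx d (J t))) G =
      (∏ t, cdet A (J t)) / (∏ j, ∏ i, lmv A u j i ^ v j i) *
        ((Matrix.of fun i l => G i (Sum.elim z u (τ.symm l))).det ^ M0 / (∏ j, z j) ^ M0) := by
  unfold movf
  rw [den_x]
  have h1 : (∏ t, cdet (Ax d A) (Jx d (J t))) = ∏ t, cdet A (J t) :=
    Finset.prod_congr rfl fun t _ => cdet_x (J t)
  have h2 : (Matrix.of fun i l => G i (ux z u ((chi.symm.trans τ).symm l))) =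
      (Matrix.of fun i l => G i (Sum.elim z u (τ.symm l))) := by
    ext i l
    rw [Matrix.of_apply, Matrix.of_apply]
    exact congrArg (G i) (ux_chi z u (τ.symm l))
  rw [h1, h2, div_mul_div_comm, mul_comm ((∏ j, z j) ^ M0)]

/-- the change of the coordinates of the constant orbifold -/
theorem W_change {D : ℕ} (τ : Fin d ⊕ (Σ j, Fin (r j)) ≃ Fin D) (M : IntermediateField ℂ K')
    {y z : Fin d → M} {Ez : Fin d → Derivation ℂ M M} (hz : IsTranscendenceBasis ℂ z)
    (hEz : ∀ i j, Ez i (z j) = if i = j then 1 else 0) (G : Fin D → Derivation ℂ K' K') :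
    (Matrix.of fun i l => G i (Sum.elim (fun j => ((y j : M) : K')) u (τ.symm l))).det =
      (Matrix.of fun i l => G i (Sum.elim (fun j => ((z j : M) : K')) u (τ.symm l))).det *
        (((Matrix.of fun i j => Ez i (y j)).det : M) : K') := by
  classical
  obtain ⟨B, hB⟩ : ∃ B : Matrix (Fin d) (Fin d) K', B =
    (algebraMap M K').mapMatrix (Matrix.of fun c j => Ez c (y j)) := ⟨_, rfl⟩
  have h1 : (Matrix.of fun i l => G i (Sum.elim (fun j => ((y j : M) : K')) u (τ.symm l))) =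
      (Matrix.of fun i l => G i (Sum.elim (fun j => ((z j : M) : K')) u (τ.symm l))) *
        (Matrix.fromBlocks B 0 0 1).submatrix τ.symm τ.symm := by
    ext i l
    rw [Matrix.mul_apply, Matrix.of_apply, ← Equiv.sum_comp τ]
    simp only [Matrix.of_apply, Matrix.submatrix_apply, Equiv.symm_apply_apply]
    rw [Fintype.sum_sum_type]
    rcases τ.symm l with j | s
    · simp only [Matrix.fromBlocks_apply₁₁, Matrix.fromBlocks_apply₂₁, Sum.elim_inl,
        Matrix.zero_apply, mul_zero, Finset.sum_const_zero, add_zero]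
      rw [hB]
      exact Pool.Agent.W73.PG.PULL.chain (L := K') z hz Ez hEz (G i) (y j)
    · simp only [Matrix.fromBlocks_apply₁₂, Matrix.fromBlocks_apply₂₂, Sum.elim_inr,
        Matrix.zero_apply, mul_zero, Finset.sum_const_zero, zero_add, Matrix.one_apply,
        mul_ite, mul_one]
      simp
  rw [h1, Matrix.det_mul, Matrix.det_submatrix_equiv_self, Matrix.det_fromBlocks_zero₂₁,
    Matrix.det_one, mul_one, hB, ← RingHom.map_det]
  rfl

open Classical in
/-- **The estimate of the forms.** -/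
theorem joint_est {N D m M0 h lamA : ℕ} (hN : Algebra.trdeg ℂ K = N)
    (τ : Fin d ⊕ (Σ j, Fin (r j)) ≃ Fin D)
    (M : IntermediateField ℂ K') [Algebra.EssFiniteType ℂ M] (hM : Algebra.trdeg ℂ M = d)
    {y : Fin d → M} {Ey : Fin d → Derivation ℂ M M} (hy : IsTranscendenceBasis ℂ y)
    (hEy : ∀ i j, Ey i (y j) = if i = j then 1 else 0)
    {β : Place ℂ M → ℝ} (hm : 0 < m) (hM0 : 0 < M0)
    {ω : Fin (h + 1) → (Fin d → Derivation ℂ M M) → M} (hω : ∀ b, IsPluri m (ω b))
    {P : Place ℂ K} (hPd : Divisorial N P) {Q : Place ℂ K'} {ε : ℕ} (hQ : Over Q P ε)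
    (hβ : ∀ (p : Place ℂ M) (ν : ℕ), Over Q p ν → 0 ≤ β p)
    (hωr : ∀ b, ∀ (p : Place ℂ M) (ν : ℕ), Over Q p ν → Divisorial d p →
      ∀ D, (∀ i, DerReg p (D i)) → ω b D = 0 ∨ -(m * (1 - β p)) ≤ (p.ord (ω b D) : ℝ))
    (hA : LcArr (upF K' L) A w) (hw0 : ∀ j i, 0 ≤ w j i)
    (hws : ∀ j, (r j + 1 : ℚ) ≤ ∑ i, w j i) (hl : ∀ j i, lmv A u j i ≠ 0)
    {v : Fin (lamA + 1) → ∀ j, Fin (q j) → ℕ}
    {J : Fin (lamA + 1) → Fin M0 → ∀ j, Fin (r j + 1) → Fin (q j)}
    (hadm : ∀ b, (∀ j, ∑ i, v b j i = (r j + 1) * M0) ∧ ∀ j i, (v b j i : ℚ) ≤ M0 * w j i)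
    (hJ : ∀ b j (f : Fin (q j) → K'), ∏ t, ∏ k, f (J b t j k) = ∏ i, f i ^ v b j i)
    {θ : Fin (lamA + 1) → K'}
    (hθ : ∀ b, θ b = (∏ t, cdet A (J b t)) / ∏ j, ∏ i, lmv A u j i ^ v b j i)
    {x : ℝ} (hx : 0 ≤ x)
    (hH : (∀ f ∈ L, f ≠ 0 → P.ord f = 0) → ∀ (c' : Fin c → ℤ) (e : ∀ j, Fin (q j) → ℕ),
      (∀ j, MOrd Q (A j) (hcd u j) (c' j) (e j)) →
      ((∀ f : M, Q.ord (f : K') = 0) → (ε : ℝ) * (1 - x) ≤
        if ∃ j i, e j i ≠ 0 then ∑ j, ((mx A j (e j) : ℝ) - ∑ i, (w j i : ℝ) * e j i) else 1) ∧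
      ∀ (p : Place ℂ M) (ν : ℕ), Over Q p ν → (ε : ℝ) * (1 - x) ≤
        ν * β p + ∑ j, ((mx A j (e j) : ℝ) - ∑ i, (w j i : ℝ) * e j i))
    {G : Fin D → Derivation L K K} (hG : ∀ i f, P.Reg f → P.Reg (G i f))
    {G' : Fin D → Derivation (upF K' L) K' K'}
    (hG' : ∀ i f, G' i (algebraMap K K' f) = algebraMap K K' (G i f))
    {T : IntermediateField (upF K' L) K'} (huT : ∀ s, IsAlgebraic T (u s))
    (hMT : ∀ z : M, IsAlgebraic T (z : K'))
    (hdep : ∀ g : Fin D → K', (∀ l, IsAlgebraic T (g l)) → AlgebraicIndependent (upF K' L) g →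
      ∃ z : K', z ≠ 0 ∧ Q.ord z ≠ 0 ∧
        IsAlgebraic (IntermediateField.adjoin (upF K' L) (Set.range g)) z)
    (b : Fin (lamA + 1)) (b' : Fin (h + 1)) :
    GeR Q (-((M0 * m : ℕ) * (ε * x)))
      (θ b * θ 0 ^ (m - 1) * (((ω b' Ey : M) : K') * ((ω 0 Ey : M) : K') ^ (M0 - 1)) *
        (Matrix.of fun i l => G' i (Sum.elim (fun j => ((y j : M) : K')) u (τ.symm l))).det ^
          (M0 * m)) := by
  obtain ⟨z, Ez, hz, hEz, hV⟩ := vpart hN M hM hy hEy hPd hQ hωr
  obtain ⟨z', hz'⟩ : ∃ z' : Fin d → K', z' = fun j => ((z j : M) : K') := ⟨_, rfl⟩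
  have hz0 : ∀ j, z' j ≠ 0 := fun j h0 => by
    rw [hz'] at h0
    exact hz.1.ne_zero j (Subtype.ext h0)
  have hp0 : ∏ j, z' j ≠ 0 := Finset.prod_ne_zero_iff.2 fun j _ => hz0 j
  obtain ⟨W, hW⟩ : ∃ W : K', W = (Matrix.of fun i l => G' i (Sum.elim z' u (τ.symm l))).det :=
    ⟨_, rfl⟩
  obtain ⟨R1, hR1⟩ : ∃ R1 : Fin (lamA + 1) → K', ∀ b, R1 b = θ b * (W ^ M0 / (∏ j, z' j) ^ M0) :=
    ⟨_, fun _ => rfl⟩
  obtain ⟨R2, hR2⟩ : ∃ R2 : Fin (h + 1) → K', ∀ b, R2 b =
      (∏ j, z' j) ^ m * ((ω b Ez : M) : K') := ⟨_, fun _ => rfl⟩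
  -- the change of the coordinates
  obtain ⟨δz, hδz⟩ : ∃ δz : M, δz = (Matrix.of fun i j => Ez i (y j)).det := ⟨_, rfl⟩
  have hWy : (Matrix.of fun i l => G' i (Sum.elim (fun j => ((y j : M) : K')) u (τ.symm l))).det =
      W * (δz : K') := by
    rw [hW, hz', hδz]
    exact W_change τ M hz hEz (fun i => (G' i).restrictScalars ℂ)
  have hωz : ∀ b, ((ω b Ez : M) : K') = (δz : K') ^ m * ((ω b Ey : M) : K') := by
    intro b
    have h1 : ω b Ez = δz ^ m * ω b Ey := by
      rw [hδz]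
      exact pluri_coord hy hEy (hω b) Ez
    rw [h1]
    rfl
  have hid : R1 b * R1 0 ^ (m - 1) * (R2 b' * R2 0 ^ (M0 - 1)) =
      θ b * θ 0 ^ (m - 1) * (((ω b' Ey : M) : K') * ((ω 0 Ey : M) : K') ^ (M0 - 1)) *
        (Matrix.of fun i l => G' i (Sum.elim (fun j => ((y j : M) : K')) u (τ.symm l))).det ^
          (M0 * m) := by
    rw [hWy, hR1, hR1, hR2, hR2, hωz, hωz]
    obtain ⟨m', rfl⟩ := Nat.exists_eq_succ_of_ne_zero hm.ne'
    obtain ⟨M', rfl⟩ := Nat.exists_eq_succ_of_ne_zero hM0.ne'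
    simp only [Nat.succ_eq_add_one, Nat.add_sub_cancel]
    have h1 : (W ^ (M' + 1) / (∏ j, z' j) ^ (M' + 1)) * (W ^ (M' + 1) / (∏ j, z' j) ^ (M' + 1)) ^ m' =
        W ^ ((M' + 1) * (m' + 1)) / (∏ j, z' j) ^ ((M' + 1) * (m' + 1)) := by
      rw [← div_pow, ← div_pow, ← pow_succ', ← pow_mul]
    have h2 : ((∏ j, z' j) ^ (m' + 1) * (δz : K') ^ (m' + 1)) *
        ((∏ j, z' j) ^ (m' + 1) * (δz : K') ^ (m' + 1)) ^ M' =
        (∏ j, z' j) ^ ((M' + 1) * (m' + 1)) * (δz : K') ^ ((M' + 1) * (m' + 1)) := by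
      rw [← mul_pow, ← mul_pow, ← pow_succ', ← pow_mul, mul_comm (m' + 1)]
    calc _ = θ b * θ 0 ^ m' * ((W ^ (M' + 1) / (∏ j, z' j) ^ (M' + 1)) *
          (W ^ (M' + 1) / (∏ j, z' j) ^ (M' + 1)) ^ m') *
          ((((∏ j, z' j) ^ (m' + 1) * (δz : K') ^ (m' + 1)) *
            ((∏ j, z' j) ^ (m' + 1) * (δz : K') ^ (m' + 1)) ^ M') *
          (((ω b' Ey : M) : K') * ((ω 0 Ey : M) : K') ^ M')) := by
            rw [mul_pow (θ 0), mul_pow ((∏ j, z' j) ^ (m' + 1)) (_ * _), mul_pow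
              ((∏ j, z' j) ^ (m' + 1)) ((δz : K') ^ (m' + 1)), mul_pow ((δz : K') ^ (m' + 1))]
            ring
      _ = _ := by
            rw [h1, h2, mul_pow W]
            have := pow_ne_zero ((M' + 1) * (m' + 1)) hp0
            field_simp
  rw [← hid]
  -- the estimates
  have hA' := lc_x (d := d) hA
  have hw0' := w0_x (d := d) hw0
  have hws' := ws_x (d := d) hws
  have hl' : ∀ j i, lmv (Ax d A) (ux z' u) j i ≠ 0 := by
    intro j
    refine Fin.cases ?_ (fun j => ?_) j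
    · intro i
      have h1 : ∀ i : Fin (d + 1), (Fin.cons 1 z' : Fin (d + 1) → K') i ≠ 0 := by
        intro i
        refine Fin.cases ?_ (fun k => ?_) i
        · exact one_ne_zero
        · exact hz0 k
      have h2 : lmv (Ax d A) (ux z' u) 0 i = (Fin.cons 1 z' : Fin (d + 1) → K') i := lmv_x0 i
      rw [h2]
      exact h1 i
    · exact hl j
  have hmov : ∀ b, R1 b = movf (chi.symm.trans τ) (Ax d A) (ux z' u) M0 (vx d M0 (v b))
      (∏ t, cdet (Ax d A) (Jx d (J b t))) (fun i => (G' i).restrictScalars ℂ) := by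
    intro b
    rw [movf_x, hR1, hθ, hW]
    rfl
  have hR2' : ∀ b, R2 b = (∏ j, ((z j : M) : K')) ^ m * ((ω b Ez : M) : K') := by
    intro b
    rw [hR2, hz']
  have hkey : ∃ s1 s2 : ℝ, (∀ b, GeR Q (M0 * s1) (R1 b)) ∧ (∀ b, GeR Q (m * s2) (R2 b)) ∧
      -(ε * x) ≤ s1 + s2 := by
    have hε0 : (0 : ℝ) ≤ ε := Nat.cast_nonneg _
    by_cases htr : ∀ f ∈ L, f ≠ 0 → P.ord f = 0
    · have hlT : ∀ j i, IsAlgebraic T (lmv (Ax d A) (ux z' u) j i) := by
        have hSm : ∀ z, z ∈ algebraicClosure T K' ↔ IsAlgebraic T z := fun z =>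
          mem_algebraicClosure_iff
        intro j
        refine Fin.cases ?_ (fun j => ?_) j
        · intro i
          have h1 : ∀ i : Fin (d + 1), IsAlgebraic T ((Fin.cons 1 z' : Fin (d + 1) → K') i) := by
            intro i
            refine Fin.cases ?_ (fun k => ?_) i
            · exact isAlgebraic_one
            · rw [hz']
              exact hMT (z k)
          have h2 : lmv (Ax d A) (ux z' u) 0 i = (Fin.cons 1 z' : Fin (d + 1) → K') i := lmv_x0 i
          rw [h2]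
          exact h1 i
        · have h3 : ∀ i : Fin (q j), IsAlgebraic T (lmv A u j i) := by
            intro i
            rw [← hSm, lmv_eq]
            exact add_mem ((hSm _).2 (alg_base ((hA.1 _ _).2 _))) (sum_mem fun k _ =>
              mul_mem ((hSm _).2 (alg_base ((hA.1 _ _).2 _))) ((hSm _).2 (huT _)))
          exact h3
      obtain ⟨c', e, ho, hest⟩ := movf_est3 (M := M0) hA' hw0' hws' hl' (chi.symm.trans τ) hQ htr
        hG hG' (fun I hI => hdep _ (fun l => by
          have hSm : ∀ z, z ∈ algebraicClosure T K' ↔ IsAlgebraic T z := fun z =>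
            mem_algebraicClosure_iff
          rw [← hSm]
          exact div_mem ((hSm _).2 (hlT _ _)) ((hSm _).2 (hlT _ _))) hI)
      have hS : ∑ j, ((mx A j (e j.succ) : ℝ) - ∑ i, (w j i : ℝ) * e j.succ i) ≤
          ∑ j, ((mx (Ax d A) j (e j) : ℝ) - ∑ i, (wx d w j i : ℝ) * e j i) := by
        rw [Fin.sum_univ_succ (f := fun j => ((mx (Ax d A) j (e j) : ℝ) -
          ∑ i, (wx d w j i : ℝ) * e j i))]
        have h1 := first_nonneg (A := A) (w := w) (e 0)
        have h2 : ∑ j : Fin c, ((mx A j (e j.succ) : ℝ) - ∑ i, (w j i : ℝ) * e j.succ i) =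
            ∑ j : Fin c, ((mx (Ax d A) j.succ (e j.succ) : ℝ) -
              ∑ i, (wx d w j.succ i : ℝ) * e j.succ i) := rfl
        rw [h2]
        exact le_add_of_nonneg_left h1
      obtain ⟨hc1, hc2⟩ := hH htr (fun j => c' j.succ) (fun j => e j.succ) (fun j => ho j.succ)
      -- the orders of the first factor
      obtain ⟨e0, he0'⟩ : ∃ e0 : Fin (d + 1) → ℕ, e 0 = e0 := ⟨e 0, rfl⟩
      have ho0 : ∀ i : Fin (d + 1), Q.ord ((Fin.cons 1 z' : Fin (d + 1) → K') i) =
          c' 0 + (e0 i : ℤ) := by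
        rw [← he0']
        intro i
        have h1 := (ho 0).2.2 i
        have h2 : lmv (Ax d A) (ux z' u) 0 i = (Fin.cons 1 z' : Fin (d + 1) → K') i := lmv_x0 i
        rw [← h2]
        exact h1
      have ho1 : (0 : ℤ) = c' 0 + (e0 0 : ℤ) := by
        have h1 := ho0 0
        rw [Fin.cons_zero, Q.ord_one] at h1
        exact h1
      obtain ⟨S1, hS1⟩ : ∃ S1 : ℝ, S1 = (if ∃ j i, e j i ≠ 0 then
          ∑ j, ((mx (Ax d A) j (e j) : ℝ) - ∑ i, (wx d w j i : ℝ) * e j i) else 1) - ε :=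
        ⟨_, rfl⟩
      have hest' : ∀ b, GeR Q (M0 * S1) (R1 b) := by
        intro b
        rw [hmov, hS1]
        exact hest (vx d M0 (v b)) (fun t => Jx d (J b t)) (adm_x (hadm b))
      rcases hV with ⟨htM, hV⟩ | ⟨p, ν, hp, ⟨i0, hi0⟩, hV⟩
      · refine ⟨S1, 0, hest', fun b => ?_, ?_⟩
        · rw [hR2', mul_zero]
          exact hV b
        · have h1 := hc1 htM
          have he0 : ∀ i : Fin (d + 1), e0 i = 0 := by
            have h3 : ∀ i : Fin (d + 1), Q.ord ((Fin.cons 1 z' : Fin (d + 1) → K') i) = 0 := by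
              intro i
              refine Fin.cases ?_ (fun k => ?_) i
              · exact Q.ord_one
              · rw [Fin.cons_succ, hz']
                exact htM (z k)
            obtain ⟨k, -, hk⟩ := (ho 0).2.1
            have h4 : (0 : ℤ) = c' 0 := (h3 k).symm.trans hk
            intro i
            have h5 := ho0 i
            rw [h3 i, ← h4, zero_add] at h5
            exact_mod_cast h5.symm
          have h2 : (if ∃ j i, e (Fin.succ j) i ≠ 0 then
              ∑ j, ((mx A j (e j.succ) : ℝ) - ∑ i, (w j i : ℝ) * e j.succ i) else 1) ≤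
              if ∃ j i, e j i ≠ 0 then
                ∑ j, ((mx (Ax d A) j (e j) : ℝ) - ∑ i, (wx d w j i : ℝ) * e j i) else 1 := by
            by_cases h3 : ∃ j i, e (Fin.succ j) i ≠ 0
            · have h4 : ∃ j i, e j i ≠ 0 := by
                obtain ⟨j, i, hi⟩ := h3
                exact ⟨j.succ, i, hi⟩
              rw [if_pos h3, if_pos h4]
              exact hS
            · have h4 : ¬ ∃ j i, e j i ≠ 0 := by
                rintro ⟨j, i, hi⟩
                revert i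
                refine Fin.cases ?_ (fun j => ?_) j
                · intro i hi
                  have h5 : ∀ i : Fin (d + 1), (e 0 : Fin (d + 1) → ℕ) i = 0 := by
                    rw [he0']
                    exact he0
                  exact hi (h5 i)
                · intro i hi
                  exact h3 ⟨j, i, hi⟩
              rw [if_neg h3, if_neg h4]
          have h3 := h1.trans h2
          rw [hS1]
          linarith
      · refine ⟨S1, ν * β p, hest', fun b => ?_, ?_⟩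
        · rw [hR2']
          exact hV b
        · have h1 := hc2 p ν hp
          have h4 : ∃ j i, e j i ≠ 0 := by
            by_contra hcon
            push Not at hcon
            have h5 : ∀ i : Fin (d + 1), e0 i = 0 := by
              rw [← he0']
              exact fun i => hcon 0 i
            have h6 := ho0 i0.succ
            rw [Fin.cons_succ, hz', hi0, h5] at h6
            rw [h5] at ho1
            have h7 : 0 < ν := hp.1
            push_cast at h6 ho1
            omega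
          rw [hS1, if_pos h4]
          linarith
    · refine ⟨0, ?_⟩
      push Not at htr
      obtain ⟨a, haL, ha0, hao⟩ := htr
      have h1 : ∀ l, DerLog Q ((G' l).restrictScalars ℂ) := by
        intro l
        have h2 : DerLog P ((G l).restrictScalars ℂ) := by
          intro f
          by_cases hf : f = 0
          · left
            rw [hf, div_zero]
          · exact log_of_const (a := a) (fun f hf => hG l f hf)
              ((G l).map_algebraMap (⟨a, haL⟩ : L)) hao hf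
        exact lift_log hQ h2 (fun f => hG' l f)
      have hkA : ∀ l j i k, ((G' l).restrictScalars ℂ) (Ax d A j i k) = 0 := fun l j i k =>
        der_alg (G' l) ((hA'.1 j i).2 k)
      have h3 : ∀ b, GeR Q (M0 * 0) (R1 b) := by
        intro b
        rw [hmov, mul_zero]
        have h2 := movf_log (chi.symm.trans τ) (J_x (d := d) (hJ b)) hl' hkA (P := Q)
          fun l f hf => (reg_iff_ge _ _).1 (h1 l f)
        rcases h2 with h2 | h2
        · exact Or.inl h2
        · right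
          exact_mod_cast h2
      have h4 : 0 ≤ (ε : ℝ) * x := mul_nonneg hε0 hx
      rcases hV with ⟨htM, hV⟩ | ⟨p, ν, hp, -, hV⟩
      · refine ⟨0, h3, fun b => ?_, by linarith⟩
        rw [hR2', mul_zero]
        exact hV b
      · refine ⟨ν * β p, h3, fun b => ?_, ?_⟩
        · rw [hR2']
          exact hV b
        · have := mul_nonneg (Nat.cast_nonneg (α := ℝ) ν) (hβ p ν hp)
          linarith
  obtain ⟨s1, s2, h1, h2, h3⟩ := hkey
  refine ((((h1 b).mul ((h1 0).pow (m - 1))).mul ((h2 b').mul ((h2 0).pow (M0 - 1))))).mono ?_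
  have hM1 : ((M0 - 1 : ℕ) : ℝ) = M0 - 1 := by
    rw [Nat.cast_sub hM0]
    simp
  have hm1 : ((m - 1 : ℕ) : ℝ) = m - 1 := by
    rw [Nat.cast_sub hm]
    simp
  rw [hM1, hm1]
  push_cast
  have h5 := mul_le_mul_of_nonneg_left h3
    (mul_nonneg (Nat.cast_nonneg (α := ℝ) M0) (Nat.cast_nonneg (α := ℝ) m))
  nlinarith

end

end Pool.Agent.X180.OJ
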