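import Pool.Agent.X180.OJ.Defs

/-!
Definitions: the Kodaira dimension of the orbifold base of a fibration of a pair.
-/

set_option autoImplicit false

open FF Pool.Agent.W602.GT Pool.Agent.Y172 Pool.Agent.Y191

namespace Pool.Agent.X180.OJ

variable {K : Type} [Field K] [Algebra ℂ K]

/-- Let `K` be the function field of `X`, `S` a set of prime divisors of `X`, `δ P` the coefficient of
`P` in the boundary, and `F` the function field of a variety `Y` of dimension `d` with a dominant
rational map `f : X ⇢ Y`. The Kodaira dimension of the orbifold base of `f`, with the boundary, is at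
least `k`: for some `m > 0` there are `m`-canonical forms on `Y`, whose ratios contain `k`
algebraically independent functions (a nonzero form, if `k = 0`), with poles of order at most
`m (1 - max (1 - δ P) 0 / ν)` at the place `p` of `F` if `P ∈ S` lies over `p` with the multiplicity
`ν`. (So the log discrepancy at `p` of the orbifold divisor is the greatest `(1 - δ P) / ν`.) -/
def BaseKodGe (S : Set (Place ℂ K)) (δ : Place ℂ K → ℝ) (F : IntermediateField ℂ K) (d k : ℕ) :
    Prop :=
  ∃ m : ℕ, 0 < m ∧ ∃ ω : Fin (k + 1) → (Fin d → Derivation ℂ F F) → F,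
    (∀ b, IsPluri m (ω b) ∧ ∀ P ∈ S, ∀ (p : Place ℂ F) (ν : ℕ), Over P p ν →
      ∀ D : Fin d → Derivation ℂ F F, (∀ i, DerReg p (D i)) →
        ω b D = 0 ∨ -(m * (1 - max (1 - δ P) 0 / ν)) ≤ (p.ord (ω b D) : ℝ)) ∧
    ∃ D, ω 0 D ≠ 0 ∧ AlgebraicIndependent ℂ (fun i : Fin k => ω i.succ D / ω 0 D)

end Pool.Agent.X180.OJ
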