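import Pool.Agent.X180.OJ.Joint
import Pool.Agent.X180.Orb.Sum

/-!
Forms of a subfield from the product of a constant orbifold and moving arrangements.
-/

set_option autoImplicit false
set_option linter.overlappingInstances false
set_option linter.unusedSectionVars false

open FF Pool.Agent.W602.GT Pool.Agent.W603.LV Pool.Agent.W619.PQ Pool.Agent.TH585.SV
open Pool.Agent.W619.Y Pool.Agent.Y172 Pool.Agent.Y191 Pool.Agent.X180.Iso Pool.Agent.X180.Tow
open Pool.Agent.X180.Orb Pool.Agent.X180.OC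

namespace Pool.Agent.X180.OJ

section

variable {K K' : Type} [Field K] [Field K'] [Algebra ℂ K] [Algebra ℂ K'] [Algebra K K']
  [IsScalarTower ℂ K K'] [FiniteDimensional K K'] {c d : ℕ} {r q : Fin c → ℕ}
variable {A : ∀ j, Fin (q j) → Fin (r j + 1) → K'} {u : (Σ j, Fin (r j)) → K'}
variable {L E : IntermediateField ℂ K} {w : ∀ j, Fin (q j) → ℚ}

open Classical in
/-- **Products of a constant orbifold and arrangements.** -/
theorem joint_part {N D e' lamA h m : ℕ} (hN : Algebra.trdeg ℂ K = N) (hLE : L ≤ E)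
    (hLK : Algebra.trdeg L K = e') (hD : Algebra.trdeg (dn E L) E = D)
    (hA : LcArr (upF K' L) A w) (τ : Fin d ⊕ (Σ j, Fin (r j)) ≃ Fin D)
    (M : IntermediateField ℂ K') [Algebra.EssFiniteType ℂ M] (hM : Algebra.trdeg ℂ M = d)
    (hML : ∀ x : Fin d → M, AlgebraicIndependent ℂ x →
      AlgebraicIndependent (upF K' L) (Sum.elim (fun j => ((x j : M) : K')) u))
    (hME : ∀ z ∈ M, IsAlgebraic (upF K' E) z) (huE : ∀ s, IsAlgebraic (upF K' E) (u s))
    (hw0 : ∀ j i, 0 ≤ w j i) (hws : ∀ j, (r j + 1 : ℚ) ≤ ∑ i, w j i)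
    {κ : Fin lamA → Σ j, Fin (r j)} (hκ : Function.Injective κ)
    (hκs : ∀ i, (r (κ i).1 + 1 : ℚ) < ∑ i', w (κ i).1 i')
    {β : Place ℂ M → ℝ} (hm : 0 < m) {X : Set (Place ℂ K)}
    (hβ : ∀ P ∈ X, ∀ (Q : Place ℂ K') (ε : ℕ), Over Q P ε →
      ∀ (p : Place ℂ M) (ν : ℕ), Over Q p ν → 0 ≤ β p)
    {ω : Fin (h + 1) → (Fin d → Derivation ℂ M M) → M} (hω : ∀ b, IsPluri m (ω b))
    (hωr : ∀ b, ∀ P ∈ X, ∀ (Q : Place ℂ K') (ε : ℕ), Over Q P ε →
      ∀ (p : Place ℂ M) (ν : ℕ), Over Q p ν → Divisorial d p → ∀ D, (∀ i, DerReg p (D i)) →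
        ω b D = 0 ∨ -(m * (1 - β p)) ≤ (p.ord (ω b D) : ℝ))
    {D0 : Fin d → Derivation ℂ M M} (hD0 : ω 0 D0 ≠ 0)
    (hDi : AlgebraicIndependent ℂ (fun i : Fin h => ω i.succ D0 / ω 0 D0))
    {δ : Place ℂ K → ℝ} (hδ : ∀ P ∈ X, 0 ≤ δ P)
    (hH : ∀ P ∈ X, (∀ f ∈ L, f ≠ 0 → P.ord f = 0) → ¬ (∀ f ∈ E, f ≠ 0 → P.ord f = 0) →
      ∀ (Q : Place ℂ K') (ε : ℕ), Over Q P ε →
        ∀ (c' : Fin c → ℤ) (e : ∀ j, Fin (q j) → ℕ),
          (∀ j, MOrd Q (A j) (hcd u j) (c' j) (e j)) →
          ((∀ f : M, Q.ord (f : K') = 0) → (ε : ℝ) * (1 - δ P) ≤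
            if ∃ j i, e j i ≠ 0 then
              ∑ j, ((mx A j (e j) : ℝ) - ∑ i, (w j i : ℝ) * e j i) else 1) ∧
          ∀ (p : Place ℂ M) (ν : ℕ), Over Q p ν → (ε : ℝ) * (1 - δ P) ≤
            ν * β p + ∑ j, ((mx A j (e j) : ℝ) - ∑ i, (w j i : ℝ) * e j i)) :
    HasPart N X δ E L D (h + lamA) := by
  have hcL : CharZero L := charZero_of_injective_algebraMap (algebraMap ℂ L).injective
  have hcU : CharZero (upF K' L) :=
    charZero_of_injective_algebraMap (algebraMap ℂ (upF K' L)).injective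
  have hcD : CharZero (dn E L) :=
    charZero_of_injective_algebraMap (algebraMap ℂ (dn E L)).injective
  obtain ⟨t, Dt, ht, -⟩ := exists_crd (k := dn E L) (K := E) hD
  obtain ⟨t', ht'⟩ : ∃ t' : Fin D → K', t' = fun j => algebraMap K K' ((t j : E) : K) :=
    ⟨_, rfl⟩
  have hti : AlgebraicIndependent (upF K' L) t' := by
    rw [ht']
    exact ind_t hLE ht
  obtain ⟨T, hT⟩ : ∃ T : IntermediateField (upF K' L) K', T =
      IntermediateField.adjoin (upF K' L) (Set.range t') := ⟨_, rfl⟩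
  have hET : ∀ z ∈ upF K' E, IsAlgebraic T z := fun z hz => by
    rw [hT, ht']
    exact alg_E hLE ht hz
  have hTE : ∀ z ∈ T, z ∈ upF K' E := fun z hz => by
    rw [hT, ht'] at hz
    exact T_le hLE hz
  -- algebraic over `E`
  have hacl : ∀ z : K', IsAlgebraic (upF K' E) z → IsAlgebraic T z :=
    fun z hz => alg_trans hET hz
  have hacl' : ∀ z : K', IsAlgebraic T z → IsAlgebraic (upF K' E) z :=
    fun z hz => alg_of_le hTE hz
  have hMT : ∀ z : M, IsAlgebraic T (z : K') := fun z => hacl _ (hME z z.2)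
  have huT : ∀ s, IsAlgebraic T (u s) := fun s => hacl _ (huE s)
  have hAT : ∀ j i k, IsAlgebraic T (A j i k) := fun j i k => alg_base ((hA.1 j i).2 k)
  have hSm : ∀ z, z ∈ algebraicClosure T K' ↔ IsAlgebraic T z := fun z =>
    mem_algebraicClosure_iff
  -- the coordinates
  obtain ⟨y, Ey, hy, hEy⟩ := exists_crd (k := ℂ) (K := M) hM
  obtain ⟨y', hy'⟩ : ∃ y' : Fin d → K', y' = fun j => ((y j : M) : K') := ⟨_, rfl⟩
  have hyu : AlgebraicIndependent (upF K' L) (Sum.elim y' u) := by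
    rw [hy']
    exact hML y hy.1
  obtain ⟨col, hcol⟩ : ∃ col : Fin D → K', col = fun l => Sum.elim y' u (τ.symm l) := ⟨_, rfl⟩
  have hcolI : AlgebraicIndependent (upF K' L) col := by
    rw [hcol]
    exact hyu.comp τ.symm τ.symm.injective
  have hcolT : ∀ l, IsAlgebraic T (col l) := by
    intro l
    rw [hcol]
    change IsAlgebraic T (Sum.elim y' u (τ.symm l))
    rcases τ.symm l with j | s
    · rw [Sum.elim_inl, hy']
      exact hMT (y j)
    · exact huT s
  -- the partial derivatives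
  obtain ⟨pd, hpd, hpdT⟩ := exists_par (k := upF K' L) hti
  rw [← hT] at hpdT
  have hchain : ∀ (G : Derivation (upF K' L) K' K') (z : K'), IsAlgebraic T z →
      G z = ∑ j, G (t' j) * pd j z := fun G z hz => by
    rw [hT] at hz
    exact chain_rule hpd G hz
  obtain ⟨J, hJd⟩ : ∃ J : K', J = (Matrix.of fun i l => pd i (col l)).det := ⟨_, rfl⟩
  have hdetc : ∀ G : Fin D → Derivation (upF K' L) K' K',
      (Matrix.of fun i l => G i (col l)).det =
        (Matrix.of fun i j => G i (t' j)).det * J := by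
    intro G
    rw [hJd, ← Matrix.det_mul]
    congr 1
    ext i l
    rw [Matrix.mul_apply, Matrix.of_apply, hchain (G i) _ (hcolT _)]
    rfl
  have hJT : IsAlgebraic T J := by
    rw [← hSm, hJd, Matrix.det_apply']
    refine sum_mem fun τ _ => mul_mem (intCast_mem _ _) (prod_mem fun i _ => ?_)
    rw [hSm]
    exact hpdT _ _ (hcolT _)
  -- `J` is not zero
  have hJ0 : J ≠ 0 := by
    have : CharZero (upF K' L) := hcU
    obtain ⟨S, hS⟩ := exists_field hcolI
    have hcS : CharZero S := charZero_of_injective_algebraMap (algebraMap ℂ S).injective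
    have hcS' : CharZero (S.restrictScalars ℂ : IntermediateField ℂ K') :=
      charZero_of_injective_algebraMap (algebraMap ℂ _).injective
    choose E' hE1 using fun i => exists_dual (k := (S.restrictScalars ℂ : IntermediateField ℂ K'))
      col (tb_rs hS) i
    have hle : upF K' L ≤ S.restrictScalars ℂ := base_le S
    have hk0 : ∀ i, Kills ((E' i).restrictScalars ℂ) (upF K' L) := fun i z hz =>
      (E' i).map_algebraMap (⟨z, hle hz⟩ : (S.restrictScalars ℂ : IntermediateField ℂ K'))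
    obtain ⟨G, hG⟩ : ∃ G : Fin D → Derivation (upF K' L) K' K', ∀ i z, G i z = E' i z :=
      ⟨fun i => liftD _ _ (hk0 i), fun _ _ => rfl⟩
    intro h0
    have h1 := hdetc G
    have h2 : (Matrix.of fun i l => G i (col l) : Matrix (Fin D) (Fin D) K') = 1 := by
      ext i j
      rw [Matrix.of_apply, hG, hE1 i j, Matrix.one_apply]
      by_cases h : i = j
      · subst h; simp
      · rw [if_neg h, if_neg (Ne.symm h)]
    rw [h2, Matrix.det_one, h0, mul_zero] at h1
    exact one_ne_zero h1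
  -- the forms of the arrangement
  have huy : AlgebraicIndependent (upF K' L) (Sum.elim u y') := by
    have h1 := hyu.comp (Sum.swap : (Σ j, Fin (r j)) ⊕ Fin d → Fin d ⊕ (Σ j, Fin (r j)))
      Sum.swap_leftInverse.injective
    convert h1 using 1
    funext b
    rcases b with b | b <;> rfl
  obtain ⟨U1, hU1⟩ : ∃ U1 : IntermediateField (upF K' L) K', U1 =
    IntermediateField.adjoin (upF K' L) (Set.range y') := ⟨_, rfl⟩
  have hu1 : AlgebraicIndependent U1 u := by
    obtain ⟨-, h2⟩ := AlgebraicIndependent.sumElim_iff.1 huy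
    rw [hU1]
    exact IntermediateField.algebraicIndependent_adjoin_iff.2 h2
  obtain ⟨S, hS⟩ := exists_field (ai_rs.2 hu1)
  have hle : upF K' L ≤ S.restrictScalars ℂ := (base_le U1).trans (base_le S)
  have hyS : ∀ j, y' j ∈ (S.restrictScalars ℂ : IntermediateField ℂ K') := by
    intro j
    refine base_le S ?_
    rw [hU1]
    exact IntermediateField.subset_adjoin _ _ ⟨j, rfl⟩
  have hA2 : LcArr (S.restrictScalars ℂ) A w :=
    ⟨fun j i => ⟨(hA.1 j i).1, fun k => alg_mono hle ((hA.1 j i).2 k)⟩, hA.2⟩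
  obtain ⟨M0, hM0, hl, v, Jb, hadm, hJ, G0, hG0, hind⟩ :=
    lc_forms (L := S.restrictScalars ℂ) hA2 finSigmaFinEquiv (tb_rs hS) hw0 hws hκ hκs
  obtain ⟨θ, hθ⟩ : ∃ θ : Fin (lamA + 1) → K', ∀ b, θ b =
      (∏ t, cdet A (Jb b t)) / ∏ j, ∏ i, lmv A u j i ^ v b j i := ⟨_, fun _ => rfl⟩
  have hmovf : ∀ b, movf finSigmaFinEquiv A u M0 (v b) (∏ t, cdet A (Jb b t))
      (fun i => (G0 i).restrictScalars ℂ) = θ b *
        (Matrix.of fun i l => ((G0 i).restrictScalars ℂ)
          (u (finSigmaFinEquiv.symm l))).det ^ M0 := by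
    intro b
    unfold movf
    rw [hθ]
    ring
  have hθ0 : θ 0 ≠ 0 := by
    intro h0
    apply hG0
    rw [hmovf, h0, zero_mul]
  have hdG0 : (Matrix.of fun i l => ((G0 i).restrictScalars ℂ)
      (u (finSigmaFinEquiv.symm l))).det ^ M0 ≠ 0 := by
    intro h0
    apply hG0
    rw [hmovf, h0, mul_zero]
  have hindA : AlgebraicIndependent (S.restrictScalars ℂ : IntermediateField ℂ K')
      (fun i : Fin lamA => θ i.succ / θ 0) := by
    have e1 : (fun i : Fin lamA => θ i.succ / θ 0) = fun i : Fin lamA =>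
        movf finSigmaFinEquiv A u M0 (v i.succ) (∏ t, cdet A (Jb i.succ t))
          (fun i => (G0 i).restrictScalars ℂ) / movf finSigmaFinEquiv A u M0 (v 0)
          (∏ t, cdet A (Jb 0 t)) (fun i => (G0 i).restrictScalars ℂ) := by
      funext i
      rw [hmovf, hmovf, mul_div_mul_right _ _ hdG0]
    rw [e1]
    exact hind
  have hθb : ∀ b, θ b ≠ 0 := by
    intro b
    refine Fin.cases hθ0 (fun i => ?_) b
    intro h0
    have := hindA.ne_zero i
    rw [h0, zero_div] at this
    exact this rfl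
  -- the forms of the constant orbifold
  have hval : ∀ b, ω b D0 = (Matrix.of fun i j => D0 i (y j)).det ^ m * ω b Ey := fun b =>
    pluri_coord hy hEy (hω b) D0
  have hd0 : (Matrix.of fun i j => D0 i (y j)).det ^ m ≠ 0 := by
    intro h0
    apply hD0
    rw [hval, h0, zero_mul]
  have hW0 : ω 0 Ey ≠ 0 := by
    intro h0
    apply hD0
    rw [hval, h0, mul_zero]
  have hind0 : AlgebraicIndependent ℂ (fun i : Fin h => ω i.succ Ey / ω 0 Ey) := by
    have e1 : (fun i : Fin h => ω i.succ Ey / ω 0 Ey) =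
        fun i : Fin h => ω i.succ D0 / ω 0 D0 := by
      funext i
      rw [hval i.succ, hval 0, mul_div_mul_left _ _ hd0]
    rw [e1]
    exact hDi
  obtain ⟨η, hη⟩ : ∃ η : Fin (h + 1) → K', ∀ b, η b = ((ω b Ey : M) : K') := ⟨_, fun _ => rfl⟩
  have hη0 : η 0 ≠ 0 := by
    rw [hη]
    exact fun h0 => hW0 (Subtype.ext h0)
  have hηb : ∀ b, η b ≠ 0 := by
    intro b
    refine Fin.cases hη0 (fun i => ?_) b
    intro h0
    rw [hη] at h0
    have h1 := hind0.ne_zero i
    have h2 : ω i.succ Ey = 0 := Subtype.ext h0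
    rw [h2, zero_div] at h1
    exact h1 rfl
  have hindV : AlgebraicIndependent (upF K' L) fun i : Fin h => η i.succ / η 0 := by
    obtain ⟨s, hs, hsb⟩ := exists_isTranscendenceBasis_superset (R := ℂ)
      (s := Set.range fun i : Fin h => ω i.succ Ey / ω 0 Ey) hind0.coe_range
    have hcard := hsb.cardinalMk_eq_trdeg
    rw [hM] at hcard
    obtain ⟨ψ⟩ : Nonempty (Fin d ≃ s) := by
      rw [← Cardinal.eq, Cardinal.mk_fin]
      exact hcard.symm
    have hx : IsTranscendenceBasis ℂ (fun j : Fin d => ((ψ j : s) : M)) := hsb.comp_equiv ψ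
    have h2 := ((hML _ hx.1).comp Sum.inl Sum.inl_injective).comp
      (fun i : Fin h => ψ.symm ⟨ω i.succ Ey / ω 0 Ey, hs ⟨i, rfl⟩⟩) (fun a b hab => by
        have h3 := congrArg Subtype.val (ψ.symm.injective hab)
        exact hind0.injective h3)
    have h4 : (fun i : Fin h => η i.succ / η 0) =
        (Sum.elim (fun j : Fin d => (((ψ j : s) : M) : K')) u ∘ Sum.inl) ∘ fun i : Fin h =>
          ψ.symm ⟨ω i.succ Ey / ω 0 Ey, hs ⟨i, rfl⟩⟩ := by
      funext i
      change _ = (((ψ (ψ.symm _) : s) : M) : K')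
      rw [Equiv.apply_symm_apply, hη, hη]
      rfl
    rw [h4]
    exact h2
  have hMS : ∀ z : M, IsAlgebraic (S.restrictScalars ℂ : IntermediateField ℂ K') (z : K') := by
    intro z
    have h1 : IsAlgebraic (IntermediateField.adjoin ℂ (Set.range y)) z :=
      hy.isAlgebraic_field.isAlgebraic _
    have h3 : ∀ w ∈ IntermediateField.adjoin ℂ (Set.range y),
        (w : K') ∈ (S.restrictScalars ℂ : IntermediateField ℂ K') := by
      have h4 : (IntermediateField.adjoin ℂ (Set.range y)).map M.val ≤ S.restrictScalars ℂ := by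
        rw [IntermediateField.adjoin_map, IntermediateField.adjoin_le_iff]
        rintro _ ⟨_, ⟨j, rfl⟩, rfl⟩
        have := hyS j
        rw [hy'] at this
        exact this
      intro w hw
      exact h4 ⟨w, hw, rfl⟩
    let i : IntermediateField.adjoin ℂ (Set.range y) →+*
        (S.restrictScalars ℂ : IntermediateField ℂ K') :=
      ((M.val : M →ₐ[ℂ] K').toRingHom.comp
        (IntermediateField.adjoin ℂ (Set.range y)).val.toRingHom).codRestrict
        (S.restrictScalars ℂ).toSubfield fun w => h3 w w.2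
    exact h1.ringHom_of_comp_eq i M.val.toRingHom i.injective rfl
  -- all forms
  obtain ⟨g, hg⟩ : ∃ g : Fin (lamA + 1) → Fin (h + 1) → K', ∀ b b', g b b' =
      θ b * θ 0 ^ (m - 1) * (η b' * η 0 ^ (M0 - 1)) * J ^ (M0 * m) := ⟨_, fun _ _ => rfl⟩
  have hg0 : ∀ b b', g b b' ≠ 0 := by
    intro b b'
    rw [hg]
    exact mul_ne_zero (mul_ne_zero (mul_ne_zero (hθb _) (pow_ne_zero _ hθ0))
      (mul_ne_zero (hηb _) (pow_ne_zero _ hη0))) (pow_ne_zero _ hJ0)
  obtain ⟨f, hf⟩ : ∃ f : Fin (h + lamA + 1) → K', f = Fin.cons (g 0 0) fun i =>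
    Sum.elim (fun i => g 0 i.succ) (fun i => g i.succ 0) (finSumFinEquiv.symm i) := ⟨_, rfl⟩
  have hfg : ∀ l, ∃ b b', f l = g b b' := by
    intro l
    rw [hf]
    refine Fin.cases ⟨0, 0, rfl⟩ (fun i => ?_) l
    rw [Fin.cons_succ]
    rcases finSumFinEquiv.symm i with i | i
    · exact ⟨0, i.succ, rfl⟩
    · exact ⟨i.succ, 0, rfl⟩
  have hind' : AlgebraicIndependent L (fun i : Fin (h + lamA) => f i.succ / f 0) := by
    have h1 := sum_ind hle hindV (fun i => by
      rw [hη, hη]
      exact hMS (ω i.succ Ey / ω 0 Ey)) hindA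
    have h2 := h1.comp (fun i : Fin (h + lamA) => (finSumFinEquiv.symm i).swap)
      (Sum.swap_leftInverse.injective.comp finSumFinEquiv.symm.injective)
    refine ai_up.1 ?_
    convert h2 using 1
    funext i
    rw [hf, Fin.cons_succ, Fin.cons_zero, Function.comp_apply]
    have h3 := pow_ne_zero (m - 1) hθ0
    have h4 := pow_ne_zero (M0 - 1) hη0
    have h5 := pow_ne_zero (M0 * m) hJ0
    rcases finSumFinEquiv.symm i with i | i
    · change g 0 i.succ / g 0 0 = η i.succ / η 0
      rw [hg, hg]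
      field_simp
    · change g i.succ 0 / g 0 0 = θ i.succ / θ 0
      rw [hg, hg]
      field_simp
  have hf0 : ∀ l, f l ≠ 0 := by
    intro l
    obtain ⟨b, b', h1⟩ := hfg l
    rw [h1]
    exact hg0 b b'
  have hlmT : ∀ j i, IsAlgebraic T (lmv A u j i) := by
    intro j i
    rw [← hSm, lmv_eq]
    exact add_mem ((hSm _).2 (hAT _ _ _)) (sum_mem fun k _ =>
      mul_mem ((hSm _).2 (hAT _ _ _)) ((hSm _).2 (huT _)))
  have hCT : ∀ I : ∀ j, Fin (r j + 1) → Fin (q j), IsAlgebraic T (cdet A I) := by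
    intro I
    rw [← hSm]
    unfold cdet
    refine prod_mem fun j _ => ?_
    rw [Matrix.det_apply']
    refine sum_mem fun τ _ => mul_mem (intCast_mem _ _) (prod_mem fun i _ => ?_)
    exact (hSm _).2 (hAT _ _ _)
  have hθT : ∀ b, θ b ∈ algebraicClosure T K' := by
    intro b
    rw [hθ]
    exact div_mem (prod_mem fun t _ => (hSm _).2 (hCT _))
      (prod_mem fun j _ => prod_mem fun i _ => pow_mem ((hSm _).2 (hlmT j i)) _)
  have hηT : ∀ b, η b ∈ algebraicClosure T K' := by
    intro b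
    rw [hη]
    exact (hSm _).2 (hMT _)
  have hgT : ∀ b b', IsAlgebraic T (g b b') := by
    intro b b'
    rw [← hSm, hg]
    exact mul_mem (mul_mem (mul_mem (hθT _) (pow_mem (hθT _) _))
      (mul_mem (hηT _) (pow_mem (hηT _) _))) (pow_mem ((hSm _).2 hJT) _)
  have hfE : ∀ l, IsAlgebraic E (f l) := fun l => by
    obtain ⟨b, b', h1⟩ := hfg l
    rw [h1]
    exact (hacl' _ (hgT b b')).of_ringHom_of_comp_eq (upE K' E) (RingHom.id K')
      (upE K' E).surjective Function.injective_id upE_comp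
  obtain ⟨R, s, hR, hs0, hsE, hsi, hs⟩ := desc_alg (K := K) L E hf0 hfE hind'
  have hMm : 0 < M0 * m := Nat.mul_pos hM0 hm
  refine ⟨(M0 * m) * R, Nat.mul_pos hMm (by omega), t, ht, s, hs0, hsE, hsi, ?_⟩
  intro P hP hPd D hD hDL b
  obtain ⟨d0, hd0'⟩ : ∃ d0, d0 = (mtx (fun j => ((t j : E) : K)) D).det := ⟨_, rfl⟩
  rw [← hd0']
  by_cases hd00 : d0 = 0
  · left
    rw [hd00, zero_pow (Nat.mul_pos hMm (by omega)).ne', zero_mul]
  right
  have hd0K : algebraMap K K' d0 ≠ 0 := by
    rw [Ne, map_eq_zero]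
    exact hd00
  obtain ⟨G, hG⟩ : ∃ G : Fin _ → Derivation L K K, ∀ i f, G i f = D i f :=
    ⟨fun i => lft L (D i) (hDL i), fun _ _ => rfl⟩
  choose G' hG' using fun i => exists_liftF (K' := K') hLK (G i)
  have hdet : (Matrix.of fun i j => G' i (t' j)).det = algebraMap K K' d0 := by
    rw [hd0', RingHom.map_det]
    congr 1
    ext i j
    rw [Matrix.of_apply, RingHom.mapMatrix_apply, Matrix.map_apply, ht', hG', hG]
    rfl
  have hGr : ∀ i f, P.Reg f → P.Reg (G i f) := fun i f hf => by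
    rw [hG]
    exact hD i f hf
  have hM0' : (0 : ℝ) ≤ (M0 * m : ℕ) := Nat.cast_nonneg _
  have hkey : ∀ (Q : Place ℂ K') (ε : ℕ), Over Q P ε → ∀ l,
      (ε : ℝ) * (-((M0 * m : ℕ) * δ P) - (M0 * m : ℕ) * P.ord d0) ≤ Q.ord (f l) := by
    intro Q ε hQ l
    have hε0 : (0 : ℝ) ≤ ε := Nat.cast_nonneg _
    obtain ⟨b, b', hfl⟩ := hfg l
    have h2 : f l * algebraMap K K' d0 ^ (M0 * m) = 0 ∨
        -(((M0 * m : ℕ) : ℝ) * (ε * δ P)) ≤
          (Q.ord (f l * algebraMap K K' d0 ^ (M0 * m)) : ℝ) := by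
      by_cases hE : ∀ f ∈ E, f ≠ 0 → P.ord f = 0
      · have hup : ∀ f ∈ upF K' E, f ≠ 0 → Q.ord f = 0 := by
          rintro f hf hf0
          obtain ⟨a, ha, rfl⟩ := mem_upF.1 hf
          have ha0 : a ≠ 0 := fun h => hf0 (by rw [h, map_zero])
          rw [hQ.2, hE a ha ha0, mul_zero]
        have h3 : Ge Q 0 (f l) := by
          rw [hfl]
          exact triv_ge hup (hacl' _ (hgT b b'))
        have h4 : Ge P 0 d0 := by
          rw [hd0']
          refine ge_det' P _ 0 (fun _ _ => 0) (fun i j => ?_) fun _ => by simp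
          refine (reg_iff_ge _ _).1 (hD i _ ?_)
          by_cases h0 : ((t j : E) : K) = 0
          · exact Or.inl h0
          · exact Or.inr (hE _ (t j).2 h0).ge
        have h5 : Ge Q 0 (algebraMap K K' d0) := by
          have := (over_ge hQ).2 h4
          rwa [mul_zero] at this
        have h6 := h3.mul (h5.pow (M0 * m))
        rw [mul_zero, add_zero] at h6
        rcases h6 with h6 | h6
        · exact Or.inl h6
        right
        have h7 : (0 : ℝ) ≤ (Q.ord (f l * algebraMap K K' d0 ^ (M0 * m)) : ℝ) := by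
          exact_mod_cast h6
        have h8 := mul_nonneg hM0' (mul_nonneg hε0 (hδ P hP))
        linarith
      · have h3 := joint_est hN τ M hM hy hEy hm hM0 hω hPd hQ (hβ P hP Q ε hQ)
          (fun b => hωr b P hP Q ε hQ) hA hw0 hws hl hadm hJ hθ (hδ P hP)
          (fun htr => hH P hP htr hE Q ε hQ) hGr hG' huT hMT (fun g hgT' hgI => ?_) b b'
        · have h5 : (Matrix.of fun i l => G' i (Sum.elim (fun j => ((y j : M) : K')) u
              (τ.symm l))).det = algebraMap K K' d0 * J := by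
            have h6 := hdetc G'
            rw [hdet, hcol, hy'] at h6
            exact h6
          have h4 : θ b * θ 0 ^ (m - 1) * (((ω b' Ey : M) : K') *
              ((ω 0 Ey : M) : K') ^ (M0 - 1)) * (Matrix.of fun i l => G' i
                (Sum.elim (fun j => ((y j : M) : K')) u (τ.symm l))).det ^ (M0 * m) =
              f l * algebraMap K K' d0 ^ (M0 * m) := by
            rw [h5, hfl, hg, hη, hη, mul_pow]
            ring
          rw [h4] at h3
          exact h3
        · push Not at hE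
          obtain ⟨a, haE, ha0, hao⟩ := hE
          refine ⟨algebraMap K K' a, by rw [Ne, map_eq_zero]; exact ha0, ?_, ?_⟩
          · rw [hQ.2]
            exact mul_ne_zero (by exact_mod_cast hQ.1.ne') hao
          · refine alg_of_indep hti hgI (fun l => ?_) ?_
            · rw [← hT]
              exact hgT' l
            · rw [← hT]
              exact hET _ (mem_upF.2 ⟨a, haE, rfl⟩)
    have h4 := h2.resolve_left (mul_ne_zero (hf0 l) (pow_ne_zero _ hd0K))
    rw [Q.ord_mul (hf0 l) (pow_ne_zero _ hd0K), Q.ord_pow, hQ.2] at h4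
    push_cast at h4 ⊢
    linarith
  have h5 := hs P _ hkey b
  rw [P.ord_mul (pow_ne_zero _ hd00) (hs0 b), P.ord_pow]
  push_cast at h5 ⊢
  linarith

end

end Pool.Agent.X180.OJ
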