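import Pool.Agent.X180.OJ.Defs
import Pool.Agent.X180.OJ.Part
import Pool.Agent.X180.OC.Tow

/-!
Towers whose steps are products of constant orbifolds and moving arrangements: the forms.
-/

set_option autoImplicit false
set_option linter.overlappingInstances false

open FF Pool.Agent.W602.GT Pool.Agent.Y172 Pool.Agent.Y191 Pool.Agent.X180.Orb
open Pool.Agent.TH585.SV
open Pool.Agent.X180.TP (dims exists_idx)
open Pool.Agent.X180.Tow (HasForms dn trdeg_dn hor_nonneg hor_le up_dn)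
open Pool.Agent.X180.Iso (hor)

namespace Pool.Agent.X180.OJ

variable {K : Type} [Field K] [Algebra ℂ K]

/-- the forms of a joint step -/
theorem part_joint {E L : IntermediateField ℂ K} (hLE : L ≤ E) {N d0 e' e lam : ℕ}
    (hK : Algebra.trdeg ℂ K = N) (hN : N = d0 + e') (hL : Algebra.trdeg ℂ L = d0)
    (hE : Algebra.trdeg ℂ E = (d0 + e : ℕ)) {S : Set (Place ℂ K)} {δ : Place ℂ K → ℝ}
    (hδ : ∀ P ∈ S, 0 ≤ δ P) (h : JointFibres S δ E L e lam) :
    HasPart N S (fun P => hor L δ P - hor E δ P) E L e lam := by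
  classical
  obtain ⟨c, d, h', r, s, w, rfl, rfl, hw, K', _, _, _, _, _, A, u, M, a, hA, hess, hM, hME, huE,
    hML, ha, ⟨m, hm, ω, hω, D0, hD0, hDi⟩, hH⟩ := h
  obtain ⟨κ, hκ, hκs⟩ := Pool.Agent.X180.TP.exists_idx r s w
  have hw0 : ∀ j i, 0 ≤ w j i := fun j => (hw j).2.1
  have hws : ∀ j, (r j + 1 : ℚ) ≤ ∑ i, w j i := fun j => (hw j).2.2
  refine joint_part (m := m) (ω := ω) (D0 := D0) hK hLE
    (Pool.Agent.X180.Iso.trdeg_rel (d := d0) (hK.trans (by rw [hN])) hL)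
    (Pool.Agent.X180.OT.trdeg_step hLE hL hE) hA
    ((Equiv.sumCongr (Equiv.refl (Fin d)) finSigmaFinEquiv).trans finSumFinEquiv) M hM hML hME huE
    hw0 hws hκ hκs hm
    (fun P hP Q ε hQ p ν hp => ha p ⟨P, hP, Q, ε, ν, hQ, hp⟩) (fun b => (hω b).1)
    (fun b P hP Q ε hQ p ν hp hpd D hD => (hω b).2 p ⟨P, hP, Q, ε, ν, hQ, hp⟩ hpd D hD) hD0 hDi
    (fun P hP => sub_nonneg.2 (hor_le hLE (hδ P hP))) ?_
  intro P hP htr hE' Q ε hQ c' e' ho
  have h1 : hor L δ P - hor E δ P = δ P := by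
    unfold hor
    rw [if_pos htr, if_neg hE', sub_zero]
  rw [h1]
  by_cases h2 : δ P < 1
  · refine hH P hP h2 htr ?_ Q ε hQ c' e' ho
    push Not at hE'
    exact hE'
  have hε0 : (0 : ℝ) ≤ ε := Nat.cast_nonneg _
  have h3 : (ε : ℝ) * (1 - δ P) ≤ 0 := mul_nonpos_of_nonneg_of_nonpos hε0 (by linarith)
  have hup : ∀ f ∈ upF K' L, f ≠ 0 → Q.ord f = 0 := by
    rintro f hf hf0
    obtain ⟨a, ha, rfl⟩ := mem_upF.1 hf
    have ha0 : a ≠ 0 := fun h => hf0 (by rw [h, map_zero])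
    rw [hQ.2, htr a ha ha0, mul_zero]
  have h4 : 0 ≤ ∑ j, ((mx A j (e' j) : ℝ) - ∑ i, (w j i : ℝ) * e' j i) := by
    refine Finset.sum_nonneg fun j _ => sub_nonneg.2 ?_
    have h2 := OP.le_mx hA hw0 hws j (OP.rk_mord hA hup j (ho j))
    have h3 := (Rat.cast_le (K := ℝ)).2 h2
    push_cast at h3
    exact h3
  refine ⟨fun _ => ?_, fun p ν hp => ?_⟩
  · refine h3.trans ?_
    split_ifs
    · exact h4
    · exact zero_le_one
  · exact h3.trans (add_nonneg (mul_nonneg (Nat.cast_nonneg _)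
      (ha p ⟨P, hP, Q, ε, ν, hQ, hp⟩)) h4)

theorem part_step {N l : ℕ} {S : Set (Place ℂ K)} {δ : Place ℂ K → ℝ} (hδ : ∀ P ∈ S, 0 ≤ δ P)
    {E : Fin (l + 1) → IntermediateField ℂ K}
    {D : Fin (l + 1) → ℕ} {e lam : Fin l → ℕ} (hT : IsTower S δ E D e lam)
    (hN : Algebra.trdeg ℂ K = N) (i : Fin l) :
    HasPart N S (fun P => hor (E i.castSucc) δ P - hor (E i.succ) δ P) (E i.succ) (E i.castSucc)
      (e i) (lam i) := by
  have h1 : ∃ e'', N = D i.castSucc + e'' := by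
    have h2 : D i.castSucc ≤ N := by
      have h3 : Algebra.trdeg ℂ (E i.castSucc) ≤ Algebra.trdeg ℂ K := by
        rw [← _root_.trdeg_add_eq ℂ (E i.castSucc) (A := K)]
        exact self_le_add_right _ _
      rw [hT.1, hN] at h3
      exact_mod_cast h3
    exact ⟨N - D i.castSucc, by omega⟩
  obtain ⟨e'', he''⟩ := h1
  exact part_joint (hT.2 i).1 hN he'' (hT.1 _) (by rw [hT.1, (hT.2 i).2.1]) hδ (hT.2 i).2.2

/-- **Towers.** -/
theorem tower_forms {N e' lam' l : ℕ}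
    {S : Set (Place ℂ K)} {δ : Place ℂ K → ℝ} (hδ : ∀ P ∈ S, 0 ≤ δ P)
    {E : Fin (l + 1) → IntermediateField ℂ K}
    {D : Fin (l + 1) → ℕ} {e lam : Fin l → ℕ} (hT : IsTower S δ E D e lam)
    (hN : Algebra.trdeg ℂ K = N) (hNe : N = D (Fin.last l) + e')
    (h0 : HasForms N S (hor (E (Fin.last l)) δ) (E (Fin.last l)) e' lam') :
    HasForms N S (hor (E 0) δ) (E 0) (∑ i, e i + e') (∑ i, lam i + lam') :=
  chain_part hN l E (fun i => (hT.2 i).1) D hT.1 e lam (fun i => (hT.2 i).2.1) hNe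
    (fun i => part_step hδ hT hN i) h0

end Pool.Agent.X180.OJ
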